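import Mathlib

/-!
# Row AV: the average over the sets
-/

namespace Pool.Agent.MP_ca1109_lc.Nb

open Finset

/-- **Row AV.** -/
theorem av_sets {N K : ℕ} {P G F F' c : Fin N → ℝ} {D T ε η : ℝ} (hT : 0 < T) (hε : 0 ≤ ε)
    (hη : 0 ≤ η) (hP : ∀ j, 0 ≤ P j) (hG : ∀ j, 0 ≤ G j) (hP1 : ∑ j, P j = 1) (hG1 : ∑ j, G j = 1)
    (hc : ∀ j, 0 ≤ c j) (hD0 : 0 ≤ D) (hD : ∑ j, c j * P j ≤ D)
    (hF : ∀ j, 0 ≤ F j ∧ F j ≤ P j) (hF' : ∀ j, 0 ≤ F' j ∧ F' j ≤ G j)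
    (hK : ∀ J : Finset (Fin N), (∀ j ∈ J, c j ≤ T * D ∧ 0 < P j) → J.card ≤ K)
    (h0 : ∀ j, P j = 0 → G j = 0)
    (hGP : ∀ j, c j ≤ T * D → |G j - P j| ≤ η)
    (hFF : ∀ j, c j ≤ T * D → 0 < P j → |F' j - F j| ≤ ε * (P j + G j) + η) :
    |∑ j, F' j - ∑ j, F j| ≤ 2 * ε + 3 * (K * η) + 2 / T := by
  classical
  obtain ⟨S, hS⟩ : ∃ S : Finset (Fin N), S = univ.filter fun j => c j ≤ T * D ∧ 0 < P j := ⟨_, rfl⟩
  obtain ⟨Z, hZ⟩ : ∃ Z : Finset (Fin N), Z = univ.filter fun j => ¬ (c j ≤ T * D) := ⟨_, rfl⟩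
  have hSm : ∀ j ∈ S, c j ≤ T * D ∧ 0 < P j := fun j hj => by
    rw [hS] at hj
    exact (mem_filter.1 hj).2
  have hZm : ∀ j ∈ Z, T * D < c j := fun j hj => by
    rw [hZ] at hj
    exact not_le.1 (mem_filter.1 hj).2
  have hdis : Disjoint S Z := by
    rw [disjoint_left]
    intro j h1 h2
    exact absurd (hSm j h1).1 (not_le.2 (hZm j h2))
  have hrest : ∀ j, j ∉ S ∪ Z → P j = 0 := by
    intro j hj
    rw [mem_union, not_or] at hj
    have h1 : c j ≤ T * D := by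
      by_contra h
      exact hj.2 (by rw [hZ]; exact mem_filter.2 ⟨mem_univ j, h⟩)
    have h2 : ¬ 0 < P j := fun h => hj.1 (by rw [hS]; exact mem_filter.2 ⟨mem_univ j, h1, h⟩)
    exact le_antisymm (not_lt.1 h2) (hP j)
  have hsplit : ∀ f : Fin N → ℝ, (∀ j, P j = 0 → f j = 0) → ∑ j, f j = ∑ j ∈ S, f j + ∑ j ∈ Z, f j := by
    intro f hf
    rw [← sum_union hdis]
    exact (sum_subset (subset_univ _) fun j _ hj => hf j (hrest j hj)).symm
  have hScard : (S.card : ℝ) ≤ K := by exact_mod_cast hK S hSm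
  -- the deep sets
  have hPZ : ∑ j ∈ Z, P j ≤ 1 / T := by
    rcases hD0.eq_or_lt with hD1 | hD1
    · have h1 : ∑ j ∈ Z, P j = 0 := by
        refine sum_eq_zero fun j hj => ?_
        have h2 := hZm j hj
        rw [← hD1, mul_zero] at h2
        have h3 : c j * P j ≤ 0 := by
          refine le_trans ?_ (hD.trans_eq hD1.symm)
          exact single_le_sum (f := fun j => c j * P j)
            (fun i _ => mul_nonneg (hc i) (hP i)) (mem_univ j)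
        by_contra h4
        have h5 : 0 < P j := lt_of_le_of_ne (hP j) (Ne.symm h4)
        exact absurd h3 (not_le.2 (mul_pos h2 h5))
      rw [h1]
      positivity
    · have h1 : (T * D) * ∑ j ∈ Z, P j ≤ D := by
        rw [mul_sum]
        calc ∑ j ∈ Z, T * D * P j ≤ ∑ j ∈ Z, c j * P j :=
              sum_le_sum fun j hj => mul_le_mul_of_nonneg_right (hZm j hj).le (hP j)
          _ ≤ ∑ j, c j * P j :=
              sum_le_sum_of_subset_of_nonneg (subset_univ _) fun j _ _ =>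
                mul_nonneg (hc j) (hP j)
          _ ≤ D := hD
      rw [le_div_iff₀ hT]
      have h2 : D * ((∑ j ∈ Z, P j) * T) ≤ D * 1 := by
        rw [mul_one]
        calc D * ((∑ j ∈ Z, P j) * T) = T * D * ∑ j ∈ Z, P j := by ring
          _ ≤ D := h1
      exact le_of_mul_le_mul_left h2 hD1
  have hP2 := hsplit P fun j h => h
  have hG2 := hsplit G h0
  rw [hP1] at hP2
  rw [hG1] at hG2
  have hGS : ∑ j ∈ S, P j - K * η ≤ ∑ j ∈ S, G j := by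
    have h1 : ∑ j ∈ S, (P j - G j) ≤ ∑ j ∈ S, η := by
      refine sum_le_sum fun j hj => ?_
      have h2 := (abs_le.1 (hGP j (hSm j hj).1)).1
      linarith
    rw [sum_sub_distrib, sum_const, nsmul_eq_mul] at h1
    have h2 : (S.card : ℝ) * η ≤ K * η := mul_le_mul_of_nonneg_right hScard hη
    linarith
  -- the difference
  have h1 := hsplit F' fun j h => le_antisymm ((hF' j).2.trans_eq (h0 j h)) (hF' j).1
  have h2 := hsplit F fun j h => le_antisymm ((hF j).2.trans_eq h) (hF j).1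
  have h3 : |∑ j ∈ S, F' j - ∑ j ∈ S, F j| ≤ ε * (∑ j ∈ S, P j + ∑ j ∈ S, G j) + K * η := by
    rw [← sum_sub_distrib]
    refine (abs_sum_le_sum_abs _ _).trans ?_
    calc ∑ j ∈ S, |F' j - F j| ≤ ∑ j ∈ S, (ε * (P j + G j) + η) :=
          sum_le_sum fun j hj => hFF j (hSm j hj).1 (hSm j hj).2
      _ = ε * (∑ j ∈ S, P j + ∑ j ∈ S, G j) + S.card * η := by
          rw [sum_add_distrib, ← mul_sum, sum_add_distrib, sum_const, nsmul_eq_mul]
      _ ≤ _ := add_le_add le_rfl (mul_le_mul_of_nonneg_right hScard hη)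
  have h4 : |∑ j ∈ Z, F' j - ∑ j ∈ Z, F j| ≤ ∑ j ∈ Z, G j + ∑ j ∈ Z, P j := by
    have a1 : 0 ≤ ∑ j ∈ Z, F' j := sum_nonneg fun j _ => (hF' j).1
    have a2 : 0 ≤ ∑ j ∈ Z, F j := sum_nonneg fun j _ => (hF j).1
    have a3 : ∑ j ∈ Z, F' j ≤ ∑ j ∈ Z, G j := sum_le_sum fun j _ => (hF' j).2
    have a4 : ∑ j ∈ Z, F j ≤ ∑ j ∈ Z, P j := sum_le_sum fun j _ => (hF j).2
    rw [abs_le]
    constructor <;> linarith
  have h5 : ∑ j ∈ Z, 0 ≤ ∑ j ∈ Z, P j := sum_le_sum fun j _ => hP j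
  have h6 : ∑ j ∈ Z, 0 ≤ ∑ j ∈ Z, G j := sum_le_sum fun j _ => hG j
  rw [sum_const_zero] at h5 h6
  have h7 : ε * (∑ j ∈ S, P j + ∑ j ∈ S, G j) ≤ ε * 2 :=
    mul_le_mul_of_nonneg_left (by linarith) hε
  have h8 : 0 ≤ (K : ℝ) * η := mul_nonneg (Nat.cast_nonneg K) hη
  have h9 : (2 : ℝ) / T = 1 / T + 1 / T := by ring
  have h10 := abs_le.1 h3
  have h11 := abs_le.1 h4
  rw [h1, h2, h9, abs_le]
  constructor <;> linarith [h10.1, h10.2, h11.1, h11.2]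

end Pool.Agent.MP_ca1109_lc.Nb
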