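import Pool.Agent.MP_ca1109_lc.Nb.DG

/-!
# Characters on a variety
-/

namespace Pool.Agent.MP_ca1109_lc.Nb

open Finset Pool.Agent.MP_ca1109_lc.Xs Pool.Agent.MP_ca1109_lc.Mpg

variable {n : ℕ}

theorem ch_point {c : ℕ} (q : Fin (c + 1) → (Fin n → Bool) → Bool) (p : (Fin n → Bool) → Bool)
    (a : ℝ) (x : Fin n → Bool) :
    (if ∀ k, q k x = true then a * sg (p x) else 0) =
      1 / 2 * ((if ∀ k : Fin c, q k.succ x = true then a * sg (p x) else 0) -
        if ∀ k : Fin c, q k.succ x = true then a * sg (Bool.xor (q 0 x) (p x)) else 0) := by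
  by_cases h : ∀ k : Fin c, q k.succ x = true
  · rw [if_pos h, if_pos h]
    cases h0 : q 0 x with
    | true =>
      rw [if_pos fun k => by
        rcases Fin.eq_zero_or_eq_succ k with rfl | ⟨j, rfl⟩
        · exact h0
        · exact h j]
      unfold sg
      cases p x <;> simp <;> ring
    | false =>
      rw [if_neg fun hk => by rw [hk 0] at h0; exact Bool.noConfusion h0]
      simp
  · rw [if_neg h, if_neg h, if_neg fun hk => h fun k => hk k.succ]
    ring

/-- Characters on a variety. -/
theorem chq {ι : Type*} [Fintype ι] {w : ι → ℝ} {Z : ι → Fin n → Bool} {d c : ℕ} {η : ℝ}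
    (H : ∀ p : (Fin n → Bool) → Bool, Deg d p →
      |∑ i, w i * sg (p (Z i)) - avg (fun x => sg (p x))| ≤ η)
    {q : Fin c → (Fin n → Bool) → Bool} (hq : ∀ k, Deg d (q k)) {p : (Fin n → Bool) → Bool}
    (hp : Deg d p) :
    |(∑ i, if ∀ k, q k (Z i) = true then w i * sg (p (Z i)) else 0) -
      avg (fun x => if ∀ k, q k x = true then sg (p x) else 0)| ≤ η := by
  induction c generalizing p with
  | zero => simpa using H p hp
  | succ c ih =>
    have h1 := ih (q := fun k : Fin c => q k.succ) (fun k => hq k.succ) hp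
    have h2 := ih (q := fun k : Fin c => q k.succ) (fun k => hq k.succ) ((hq 0).xor hp)
    have h3 : (∑ i, if ∀ k, q k (Z i) = true then w i * sg (p (Z i)) else 0) =
        1 / 2 * ((∑ i, if ∀ k : Fin c, q k.succ (Z i) = true then w i * sg (p (Z i)) else 0) -
          ∑ i, if ∀ k : Fin c, q k.succ (Z i) = true then
            w i * sg (Bool.xor (q 0 (Z i)) (p (Z i))) else 0) := by
      rw [← sum_sub_distrib, mul_sum]
      exact sum_congr rfl fun i _ => ch_point q p (w i) (Z i)
    have h4 : avg (fun x => if ∀ k, q k x = true then sg (p x) else 0) =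
        1 / 2 * (avg (fun x => if ∀ k : Fin c, q k.succ x = true then sg (p x) else 0) -
          avg fun x => if ∀ k : Fin c, q k.succ x = true then
            sg (Bool.xor (q 0 x) (p x)) else 0) := by
      unfold avg
      rw [← sub_div, ← sum_sub_distrib, ← mul_div_assoc, mul_sum]
      congr 1
      refine sum_congr rfl fun x _ => ?_
      have h5 := ch_point q p 1 x
      simpa only [one_mul] using h5
    rw [h3, h4, ← mul_sub, abs_mul, abs_of_nonneg (by norm_num : (0 : ℝ) ≤ 1 / 2)]
    rw [abs_le] at h1 h2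
    have h6 : |(∑ i, if ∀ k : Fin c, q k.succ (Z i) = true then w i * sg (p (Z i)) else 0) -
          (∑ i, if ∀ k : Fin c, q k.succ (Z i) = true then
            w i * sg (Bool.xor (q 0 (Z i)) (p (Z i))) else 0) -
        (avg (fun x => if ∀ k : Fin c, q k.succ x = true then sg (p x) else 0) -
          avg fun x => if ∀ k : Fin c, q k.succ x = true then
            sg (Bool.xor (q 0 x) (p x)) else 0)| ≤ 2 * η := by
      rw [abs_le]
      constructor <;> linarith [h1.1, h1.2, h2.1, h2.2]
    linarith

end Pool.Agent.MP_ca1109_lc.Nb
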