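import Pool.Agent.MP_ca1109_lc.Nb.Test
import Mathlib

/-!
# Polynomials of bounded degree over the field with two elements
-/

namespace Pool.Agent.MP_ca1109_lc.Nb

open Finset MvPolynomial Pool.Agent.MP_ca1109_lc.Xs

variable {n : ℕ}

/-- Addition of bits modulo two. -/
def xr (x s : Fin n → Bool) : Fin n → Bool := fun i => Bool.xor (x i) (s i)

/-- The sign of a bit. -/
def sg (b : Bool) : ℝ := if b = true then -1 else 1

/-- A function given by a polynomial of degree at most `d`. -/
def Rep (d : ℕ) (f : (Fin n → ZMod 2) → ZMod 2) : Prop :=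
  ∃ P : MvPolynomial (Fin n) (ZMod 2), P.totalDegree ≤ d ∧ ∀ x, f x = eval x P

theorem Rep.mono {d e : ℕ} (h : d ≤ e) {f : (Fin n → ZMod 2) → ZMod 2} (hf : Rep d f) : Rep e f := by
  obtain ⟨P, hP, H⟩ := hf
  exact ⟨P, hP.trans h, H⟩

theorem Rep.add {d : ℕ} {f g : (Fin n → ZMod 2) → ZMod 2} (hf : Rep d f) (hg : Rep d g) :
    Rep d fun x => f x + g x := by
  obtain ⟨P, hP, H⟩ := hf
  obtain ⟨Q, hQ, H'⟩ := hg
  exact ⟨P + Q, (totalDegree_add P Q).trans (max_le hP hQ), fun x => by
    show f x + g x = _
    rw [map_add, H, H']⟩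

theorem Rep.mul {d e : ℕ} {f g : (Fin n → ZMod 2) → ZMod 2} (hf : Rep d f) (hg : Rep e g) :
    Rep (d + e) fun x => f x * g x := by
  obtain ⟨P, hP, H⟩ := hf
  obtain ⟨Q, hQ, H'⟩ := hg
  exact ⟨P * Q, (totalDegree_mul P Q).trans (Nat.add_le_add hP hQ), fun x => by
    show f x * g x = _
    rw [map_mul, H, H']⟩

theorem rep_const (c : ZMod 2) : Rep 0 fun _ : Fin n → ZMod 2 => c :=
  ⟨C c, by rw [totalDegree_C], fun x => by rw [eval_C]⟩

theorem rep_X (i : Fin n) : Rep 1 fun x : Fin n → ZMod 2 => x i :=
  ⟨X i, (totalDegree_X i).le, fun x => by rw [eval_X]⟩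

theorem rep_sum {ι : Type*} (s : Finset ι) {d : ℕ} {f : ι → (Fin n → ZMod 2) → ZMod 2}
    (hf : ∀ i ∈ s, Rep d (f i)) : Rep d fun x => ∑ i ∈ s, f i x := by
  classical
  induction s using Finset.induction_on with
  | empty => simpa using (rep_const (n := n) 0).mono (Nat.zero_le d)
  | insert i s hi ih =>
    simp only [sum_insert hi]
    exact (hf i (mem_insert_self i s)).add (ih fun j hj => hf j (mem_insert_of_mem hj))

/-- Monomials. -/
theorem rep_mono (k : ℕ) : ∀ s : Fin n →₀ ℕ, ∑ i, s i = k →
    (∀ a : Fin n → ZMod 2, Rep k fun x => ∏ i, (x i + a i) ^ s i) ∧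
    ∀ a b : Fin n → ZMod 2, Rep (k - 1) fun x => ∏ i, (x i + a i) ^ s i - ∏ i, (x i + b i) ^ s i := by
  induction k with
  | zero =>
    intro s hs
    have h0 : ∀ i, s i = 0 := fun i => by
      have := Finset.sum_eq_zero_iff.1 hs i (mem_univ i)
      exact this
    have h1 : ∀ y : Fin n → ZMod 2, ∏ i, y i ^ s i = 1 := fun y =>
      prod_eq_one fun i _ => by rw [h0, pow_zero]
    refine ⟨fun a => ?_, fun a b => ?_⟩
    · have : (fun x : Fin n → ZMod 2 => ∏ i, (x i + a i) ^ s i) = fun _ => 1 := by
        funext x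
        exact h1 fun i => x i + a i
      rw [this]
      exact rep_const 1
    · have : (fun x : Fin n → ZMod 2 => ∏ i, (x i + a i) ^ s i - ∏ i, (x i + b i) ^ s i) =
          fun _ => 0 := by
        funext x
        rw [h1 fun i => x i + a i, h1 fun i => x i + b i, sub_self]
      rw [this]
      exact rep_const 0
  | succ k ih =>
    intro s hs
    obtain ⟨i, hi⟩ : ∃ i, s i ≠ 0 := by
      by_contra hcon
      push Not at hcon
      rw [sum_eq_zero fun i _ => hcon i] at hs
      omega
    obtain ⟨t, rfl⟩ : ∃ t : Fin n →₀ ℕ, s = t + Finsupp.single i 1 := by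
      refine ⟨s - Finsupp.single i 1, ?_⟩
      ext j
      rw [Finsupp.add_apply, Finsupp.tsub_apply]
      rcases eq_or_ne j i with rfl | hj
      · rw [Finsupp.single_eq_same]
        omega
      · rw [Finsupp.single_eq_of_ne hj]
        omega
    have h1 : ∀ y : Fin n → ZMod 2, ∏ j, y j ^ (t + Finsupp.single i 1 : Fin n →₀ ℕ) j =
        y i * ∏ j, y j ^ t j := by
      intro y
      simp only [Finsupp.add_apply, pow_add, prod_mul_distrib]
      rw [mul_comm]
      congr 1
      rw [prod_eq_single i]
      · rw [Finsupp.single_eq_same, pow_one]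
      · intro j _ hj
        rw [Finsupp.single_eq_of_ne hj, pow_zero]
      · intro h
        exact absurd (mem_univ i) h
    have h2 : ∑ j, t j = k := by
      have h3 : ∑ j, (t + Finsupp.single i 1 : Fin n →₀ ℕ) j = ∑ j, t j + 1 := by
        simp only [Finsupp.add_apply, sum_add_distrib]
        congr 1
        rw [sum_eq_single i]
        · rw [Finsupp.single_eq_same]
        · intro j _ hj
          rw [Finsupp.single_eq_of_ne hj]
        · intro h
          exact absurd (mem_univ i) h
      omega
    obtain ⟨ih1, ih2⟩ := ih t h2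
    have hX : ∀ a : Fin n → ZMod 2, Rep 1 fun x : Fin n → ZMod 2 => x i + a i := fun a =>
      (rep_X i).add ((rep_const (a i)).mono (Nat.zero_le 1))
    refine ⟨fun a => ?_, fun a b => ?_⟩
    · have h4 : (fun x : Fin n → ZMod 2 => ∏ j, (x j + a j) ^ (t + Finsupp.single i 1 : Fin n →₀ ℕ) j) =
          fun x => (x i + a i) * ∏ j, (x j + a j) ^ t j := by
        funext x
        exact h1 fun j => x j + a j
      rw [h4, add_comm k 1]
      exact (hX a).mul (ih1 a)
    · have h4 : (fun x : Fin n → ZMod 2 => ∏ j, (x j + a j) ^ (t + Finsupp.single i 1 : Fin n →₀ ℕ) j -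
          ∏ j, (x j + b j) ^ (t + Finsupp.single i 1 : Fin n →₀ ℕ) j) =
          fun x => (x i + a i) * (∏ j, (x j + a j) ^ t j - ∏ j, (x j + b j) ^ t j) +
            (a i - b i) * ∏ j, (x j + b j) ^ t j := by
        funext x
        rw [h1 fun j => x j + a j, h1 fun j => x j + b j]
        ring
      rw [h4, Nat.add_sub_cancel]
      refine Rep.add ?_ (by simpa using (rep_const (a i - b i)).mul (ih1 b))
      rcases Nat.eq_zero_or_pos k with rfl | hk
      · have h5 : ∀ y : Fin n → ZMod 2, ∏ j, y j ^ t j = 1 := fun y => by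
          refine prod_eq_one fun j _ => ?_
          rw [Finset.sum_eq_zero_iff.1 h2 j (mem_univ j), pow_zero]
        have h6 : (fun x : Fin n → ZMod 2 => (x i + a i) * (∏ j, (x j + a j) ^ t j -
            ∏ j, (x j + b j) ^ t j)) = fun _ => 0 := by
          funext x
          rw [h5 fun j => x j + a j, h5 fun j => x j + b j, sub_self, mul_zero]
        rw [h6]
        exact rep_const 0
      · have h6 := (hX a).mul (ih2 a b)
        have h7 : 1 + (k - 1) = k := by omega
        rw [h7] at h6
        exact h6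

theorem Rep.der {d : ℕ} {f : (Fin n → ZMod 2) → ZMod 2} (hf : Rep (d + 1) f)
    (a b : Fin n → ZMod 2) :
    Rep d fun x => f (fun i => x i + a i) - f (fun i => x i + b i) := by
  obtain ⟨P, hP, H⟩ := hf
  have h1 : (fun x : Fin n → ZMod 2 => f (fun i => x i + a i) - f (fun i => x i + b i)) = fun x =>
      ∑ s ∈ P.support, P.coeff s * (∏ i, (x i + a i) ^ s i - ∏ i, (x i + b i) ^ s i) := by
    funext x
    rw [H, H, eval_eq', eval_eq', ← sum_sub_distrib]
    exact sum_congr rfl fun s _ => by ring
  rw [h1]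
  refine rep_sum _ fun s hs => ?_
  have h2 : ∑ i, s i ≤ d + 1 := by
    have h3 := (le_totalDegree hs).trans hP
    rwa [Finsupp.sum_fintype _ _ fun _ => rfl] at h3
  have h4 := (rep_const (n := n) (P.coeff s)).mul ((rep_mono _ s rfl).2 a b)
  exact h4.mono (by omega)

theorem Rep.shift {d : ℕ} {f : (Fin n → ZMod 2) → ZMod 2} (hf : Rep d f)
    (a : Fin n → ZMod 2) : Rep d fun x => f (fun i => x i + a i) := by
  obtain ⟨P, hP, H⟩ := hf
  have h1 : (fun x : Fin n → ZMod 2 => f (fun i => x i + a i)) = fun x =>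
      ∑ s ∈ P.support, P.coeff s * ∏ i, (x i + a i) ^ s i := by
    funext x
    rw [H, eval_eq']
  rw [h1]
  refine rep_sum _ fun s hs => ?_
  have h2 : ∑ i, s i ≤ d := by
    have h3 := (le_totalDegree hs).trans hP
    rwa [Finsupp.sum_fintype _ _ fun _ => rfl] at h3
  have h4 := (rep_const (n := n) (P.coeff s)).mul ((rep_mono _ s rfl).1 a)
  exact h4.mono (by omega)

/-- A bit as an element of the field. -/
def bt (b : Bool) : ZMod 2 := if b = true then 1 else 0

theorem bt_xor (a b : Bool) : bt (xor a b) = bt a + bt b := by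
  cases a <;> cases b <;> decide

theorem bt_and (a b : Bool) : bt (a && b) = bt a * bt b := by
  cases a <;> cases b <;> decide

theorem bt_decide (z : ZMod 2) : bt (decide (z = 1)) = z := by
  revert z
  decide

theorem bt_eq (b : Bool) : decide (bt b = 1) = b := by
  cases b <;> decide

theorem bt_inj {a b : Bool} (h : bt a = bt b) : a = b := by
  rw [← bt_eq a, h, bt_eq]

theorem deg_iff {d : ℕ} {p : (Fin n → Bool) → Bool} : Deg d p ↔
    Rep d fun z => bt (p fun i => decide (z i = 1)) := by
  have hz : ∀ z : Fin n → ZMod 2, (fun i => if decide (z i = 1) = true then (1 : ZMod 2) else 0) = z := by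
    intro z
    funext i
    exact bt_decide (z i)
  have hb : ∀ (c : Bool) (w : ZMod 2), (c = true ↔ w = 1) ↔ bt c = w := by decide
  constructor
  · rintro ⟨P, hP, H⟩
    refine ⟨P, hP, fun z => ?_⟩
    have h1 := H fun i => decide (z i = 1)
    rw [hz] at h1
    exact (hb _ _).1 h1
  · rintro ⟨P, hP, H⟩
    refine ⟨P, hP, fun x => ?_⟩
    rw [hb]
    have h1 := H fun i => if x i = true then (1 : ZMod 2) else 0
    rw [← h1]
    congr 2
    funext i
    exact (bt_eq (x i)).symm

theorem Deg.mono {d e : ℕ} (h : d ≤ e) {p : (Fin n → Bool) → Bool} (hp : Deg d p) : Deg e p := by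
  rw [deg_iff] at hp ⊢
  exact hp.mono h

theorem Deg.xor {d : ℕ} {p q : (Fin n → Bool) → Bool} (hp : Deg d p) (hq : Deg d q) :
    Deg d fun x => xor (p x) (q x) := by
  rw [deg_iff] at hp hq ⊢
  simp only [bt_xor]
  exact hp.add hq

theorem Deg.and {d e : ℕ} {p q : (Fin n → Bool) → Bool} (hp : Deg d p) (hq : Deg e q) :
    Deg (d + e) fun x => p x && q x := by
  rw [deg_iff] at hp hq ⊢
  simp only [bt_and]
  exact hp.mul hq

theorem deg_const (b : Bool) : Deg 0 fun _ : Fin n → Bool => b := by
  rw [deg_iff]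
  exact rep_const _

theorem deg_coord (i : Fin n) : Deg 1 fun x : Fin n → Bool => x i := by
  rw [deg_iff]
  simp only [bt_decide]
  exact rep_X i

theorem xr_add (z a : Fin n → ZMod 2) : xr (fun i => decide (z i = 1)) (fun i => decide (a i = 1)) =
    fun i => decide (z i + a i = 1) := by
  funext i
  show Bool.xor (decide (z i = 1)) (decide (a i = 1)) = decide (z i + a i = 1)
  generalize z i = w
  generalize a i = v
  revert w v
  decide

theorem xr_bt (z : Fin n → ZMod 2) (a : Fin n → Bool) : xr (fun i => decide (z i = 1)) a =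
    fun i => decide (z i + bt (a i) = 1) := by
  have h1 : a = fun i => decide (bt (a i) = 1) := by
    funext i
    exact (bt_eq (a i)).symm
  rw [← xr_add z fun i => bt (a i), ← h1]

theorem Deg.der {d : ℕ} {p : (Fin n → Bool) → Bool} (hp : Deg (d + 1) p) (a b : Fin n → Bool) :
    Deg d fun x => Bool.xor (p (xr x a)) (p (xr x b)) := by
  rw [deg_iff] at hp ⊢
  have h1 := hp.der (fun i => bt (a i)) (fun i => bt (b i))
  have h2 : ∀ u v : ZMod 2, u - v = u + v := by decide
  simp only [bt_xor, xr_bt]
  simpa only [h2] using h1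

theorem Deg.shift {d : ℕ} {p : (Fin n → Bool) → Bool} (hp : Deg d p) (a : Fin n → Bool) :
    Deg d fun x => p (xr x a) := by
  rw [deg_iff] at hp ⊢
  have h1 := hp.shift (fun i => bt (a i))
  simp only [xr_bt]
  exact h1

theorem Deg.zero {p : (Fin n → Bool) → Bool} (hp : Deg 0 p) (x y : Fin n → Bool) : p x = p y := by
  obtain ⟨P, hP, H⟩ := hp
  have h1 : P = C (coeff 0 P) := totalDegree_eq_zero_iff_eq_C.1 (Nat.le_zero.1 hP)
  rw [Bool.eq_iff_iff, H x, H y, h1, eval_C, eval_C]

/-- The parity of polynomials. -/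
theorem deg_par {d m : ℕ} {Q : Fin m → (Fin n → Bool) → Bool} (hQ : ∀ i, Deg d (Q i))
    (S : Finset (Fin m)) : Deg d fun x => par S fun i => Q i x := by
  classical
  induction S using Finset.induction_on with
  | empty =>
    have h1 : (fun x : Fin n → Bool => par ∅ fun i => Q i x) = fun _ => false := by
      funext x
      simp [par]
    rw [h1]
    exact (deg_const false).mono (Nat.zero_le d)
  | insert i S hi ih =>
    have h1 : (fun x : Fin n → Bool => par (insert i S) fun i => Q i x) =
        fun x => Bool.xor (Q i x) (par S fun i => Q i x) := by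
      funext x
      show decide (Odd ((insert i S).filter fun i => Q i x = true).card) =
        Bool.xor (Q i x) (decide (Odd (S.filter fun i => Q i x = true).card))
      rw [filter_insert]
      cases hq : Q i x with
      | true =>
        rw [if_pos rfl, card_insert_of_notMem fun h => hi (mem_filter.1 h).1]
        rcases Nat.even_or_odd (S.filter fun i => Q i x = true).card with h | h
        · simp [Nat.not_odd_iff_even.2 h, h.add_one]
        · simp [h, Nat.not_odd_iff_even.2 h.add_one]
      | false =>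
        rw [if_neg (by simp)]
        simp
    rw [h1]
    exact (hQ i).xor ih

theorem deg_all {d c : ℕ} {q : Fin c → (Fin n → Bool) → Bool} (hq : ∀ i, Deg d (q i)) :
    Deg (c * d) fun x => decide (∀ i, q i x = true) := by
  induction c with
  | zero =>
    rw [Nat.zero_mul]
    have h1 : (fun x : Fin n → Bool => decide (∀ i, q i x = true)) = fun _ => true := by
      funext x
      rw [decide_eq_true_iff]
      exact fun i => i.elim0
    rw [h1]
    exact deg_const true
  | succ c ih =>
    have h1 : (fun x : Fin n → Bool => decide (∀ i, q i x = true)) =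
        fun x => q 0 x && decide (∀ i : Fin c, q i.succ x = true) := by
      funext x
      rw [Bool.eq_iff_iff, decide_eq_true_iff, Bool.and_eq_true, decide_eq_true_iff, Fin.forall_fin_succ]
    rw [h1]
    exact ((hq 0).and (ih fun i => hq i.succ)).mono (by rw [Nat.succ_mul]; omega)

end Pool.Agent.MP_ca1109_lc.Nb
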