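import Pool.Agent.MP_ca1109_lc.Nb.DG
import Pool.Agent.MP_ca1109_lc.Xs.MN

/-!
# One set, one weighted random string
-/

namespace Pool.Agent.MP_ca1109_lc.Nb

open Finset Pool.Agent.MP_ca1109_lc.Xs Pool.Agent.MP_ca1109_lc.Mpg

variable {n : ℕ}

/-- The step on one set, for the weights `u i` of the values `y i`. -/
theorem leaf_gen {m C r B k h : ℕ} {ι : Type*} [Fintype ι] {u : ι → ℝ} (hu : ∀ i, 0 ≤ u i)
    {y : ι → Fin m → Bool} {β W ε : ℝ} (hW : W = ∑ i, u i) (hW0 : 0 < W)
    (hβ : ∀ S : Finset (Fin m), S.Nonempty →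
      |∑ i, u i * (if par S (y i) = true then -1 else 1)| ≤ β)
    (hβC : β * ((m : ℝ) + 1) ^ C ≤ W)
    (H : ∀ (p : (Fin m → Bool) → ℝ) (δ : ℝ), δ * ((m : ℝ) + 1) ^ C ≤ 1 → SmallBias m δ p →
      ∀ g : (Fin m → Bool) → Bool, SbTest r B k h m g →
        |(∑ y, if g y = true then p y else 0) - prob g| ≤ ε)
    {g : (Fin m → Bool) → Bool} (hg : SbTest r B k h m g) :
    |(∑ i, if g (y i) = true then u i else 0) - W * prob g| ≤ ε * W := by
  classical
  set p : (Fin m → Bool) → ℝ := fun z => (∑ i, if y i = z then u i else 0) / W with hp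
  have hF : ∀ F : (Fin m → Bool) → ℝ, ∑ z, p z * F z = (∑ i, u i * F (y i)) / W := by
    intro F
    simp only [hp, div_mul_eq_mul_div, Finset.sum_mul]
    rw [← Finset.sum_div, Finset.sum_comm]
    congr 1
    refine Finset.sum_congr rfl fun i _ => ?_
    simp only [ite_mul, zero_mul]
    rw [Finset.sum_ite_eq univ (y i) fun z => u i * F z, if_pos (Finset.mem_univ _)]
  have hb : SmallBias m (β / W) p := by
    refine ⟨fun z => ?_, ?_, fun T hT _ => ?_⟩
    · refine div_nonneg (Finset.sum_nonneg fun i _ => ?_) hW0.le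
      split_ifs
      · exact hu i
      · exact le_rfl
    · have h1 := hF fun _ => 1
      simp only [mul_one] at h1
      rw [h1, ← hW]
      exact div_self hW0.ne'
    · rw [hF fun z => if par T z = true then -1 else 1, abs_div, abs_of_pos hW0]
      exact div_le_div_of_nonneg_right (hβ T hT) hW0.le
  have h1 := H p (β / W) (by
    rw [div_mul_eq_mul_div, div_le_one hW0]
    exact hβC) hb g hg
  have h2 : (∑ z, if g z = true then p z else 0) = (∑ i, if g (y i) = true then u i else 0) / W := by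
    have h3 : (∑ z, if g z = true then p z else 0) =
        ∑ z, p z * (if g z = true then 1 else 0) := by
      refine Finset.sum_congr rfl fun z _ => ?_
      split_ifs <;> simp
    rw [h3, hF fun z => if g z = true then 1 else 0]
    congr 1
    refine Finset.sum_congr rfl fun i _ => ?_
    split_ifs <;> simp
  rw [h2] at h1
  have h3 : (∑ i, if g (y i) = true then u i else 0) / W - prob g =
      ((∑ i, if g (y i) = true then u i else 0) - W * prob g) / W := by
    field_simp
  rw [h3, abs_div, abs_of_pos hW0, div_le_iff₀ hW0] at h1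
  exact h1

/-- One set, one weighted random string. -/
theorem leaf_set {m c C r B k h : ℕ} {ι : Type*} [Fintype ι] {w : ι → ℝ} (hw : ∀ i, 0 ≤ w i)
    {Z : ι → Fin n → Bool} {q : Fin c → (Fin n → Bool) → Bool} {Q : Fin m → (Fin n → Bool) → Bool}
    {β W ε : ℝ} (hW : W = ∑ i, if ∀ k, q k (Z i) = true then w i else 0) (hW0 : 0 < W)
    (hβ : ∀ S : Finset (Fin m), S.Nonempty →
      |∑ i, if ∀ k, q k (Z i) = true then w i * sg (par S fun k => Q k (Z i)) else 0| ≤ β)
    (hβC : β * ((m : ℝ) + 1) ^ C ≤ W)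
    (H : ∀ (p : (Fin m → Bool) → ℝ) (δ : ℝ), δ * ((m : ℝ) + 1) ^ C ≤ 1 → SmallBias m δ p →
      ∀ g : (Fin m → Bool) → Bool, SbTest r B k h m g →
        |(∑ y, if g y = true then p y else 0) - prob g| ≤ ε)
    {g : (Fin m → Bool) → Bool} (hg : SbTest r B k h m g) :
    |(∑ i, if (∀ k, q k (Z i) = true) ∧ g (fun k => Q k (Z i)) = true then w i else 0) -
      W * prob g| ≤ ε * W := by
  have h1 := leaf_gen (u := fun i => if ∀ k, q k (Z i) = true then w i else 0)
    (y := fun i k => Q k (Z i)) (fun i => by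
      beta_reduce
      split_ifs
      · exact hw i
      · exact le_rfl) hW hW0 (β := β) (fun S hS => by
      refine le_trans (le_of_eq ?_) (hβ S hS)
      congr 1
      refine Finset.sum_congr rfl fun i _ => ?_
      unfold sg
      beta_reduce
      split_ifs <;> simp) hβC H hg
  refine le_trans (le_of_eq ?_) h1
  congr 2
  refine Finset.sum_congr rfl fun i _ => ?_
  by_cases h2 : ∀ k, q k (Z i) = true
  · by_cases h3 : g (fun k => Q k (Z i)) = true
    · rw [if_pos ⟨h2, h3⟩, if_pos h3, if_pos h2]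
    · rw [if_neg fun h => h3 h.2, if_neg h3]
  · rw [if_neg fun h => h2 h.1, if_neg h2]
    split_ifs <;> rfl

end Pool.Agent.MP_ca1109_lc.Nb
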