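import Pool.Agent.MP_ca1109_lc.Nb.DG

/-!
# Row RM: a polynomial of degree at most `D` which is true somewhere is true with probability at
least `2 ^ (-D)`
-/

namespace Pool.Agent.MP_ca1109_lc.Nb

open Finset Pool.Agent.MP_ca1109_lc.Xs

variable {n : ℕ}

theorem rm_xr (x a : Fin n → Bool) : xr (xr x a) a = x := by
  funext i
  show Bool.xor (Bool.xor (x i) (a i)) (a i) = x i
  cases x i <;> cases a i <;> rfl

theorem rm_true {E : (Fin n → Bool) → Bool} (h : ∀ x, E x = true) : prob E = 1 := by
  unfold prob
  rw [filter_true_of_mem fun x _ => h x, card_univ, div_self]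
  exact_mod_cast Fintype.card_ne_zero

theorem rm_card (E : (Fin n → Bool) → Bool) (a : Fin n → Bool) :
    (univ.filter fun x => E (xr x a) = true).card = (univ.filter fun x => E x = true).card := by
  refine card_bij (fun x _ => xr x a) ?_ ?_ ?_
  · intro x hx
    exact mem_filter.2 ⟨mem_univ _, (mem_filter.1 hx).2⟩
  · intro x _ y _ h
    have h1 := congrArg (fun z => xr z a) h
    simpa only [rm_xr] using h1
  · intro y hy
    refine ⟨xr y a, mem_filter.2 ⟨mem_univ _, ?_⟩, rm_xr y a⟩
    rw [rm_xr]
    exact (mem_filter.1 hy).2

/-- **Row RM.** -/
theorem rm_density {D : ℕ} {E : (Fin n → Bool) → Bool} (hE : Deg D E) (h : ∃ x, E x = true) :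
    (1 / 2 : ℝ) ^ D ≤ prob E := by
  induction D generalizing E with
  | zero =>
    obtain ⟨x, hx⟩ := h
    rw [rm_true fun y => (hE.zero y x).trans hx, pow_zero]
  | succ D ih =>
    obtain ⟨x₀, hx₀⟩ := h
    by_cases hc : ∀ a x, E (xr x a) = E x
    · have h1 : ∀ y, E y = true := by
        intro y
        have h2 := hc (xr x₀ y) x₀
        have h3 : xr x₀ (xr x₀ y) = y := by
          funext i
          show Bool.xor (x₀ i) (Bool.xor (x₀ i) (y i)) = y i
          cases x₀ i <;> cases y i <;> rfl
        rw [h3] at h2
        exact h2.trans hx₀
      rw [rm_true h1]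
      exact pow_le_one₀ (by norm_num) (by norm_num)
    · push Not at hc
      obtain ⟨a, x₁, hx₁⟩ := hc
      have hz : ∀ x : Fin n → Bool, xr x (fun _ => false) = x := by
        intro x
        funext i
        show Bool.xor (x i) false = x i
        cases x i <;> rfl
      have hF := hE.der a fun _ => false
      simp only [hz] at hF
      have h1 := ih hF ⟨x₁, by
        cases h2 : E (xr x₁ a) <;> cases h3 : E x₁ <;> simp_all⟩
      have h2 : (univ.filter fun x : Fin n → Bool => Bool.xor (E (xr x a)) (E x) = true).card ≤
          (univ.filter fun x => E x = true).card + (univ.filter fun x => E x = true).card := by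
        have h3 := rm_card E a
        calc _ ≤ ((univ.filter fun x => E (xr x a) = true) ∪
              univ.filter fun x => E x = true).card := by
              refine card_le_card fun x hx => ?_
              rw [mem_filter] at hx
              rw [mem_union, mem_filter, mem_filter]
              cases h4 : E (xr x a) <;> cases h5 : E x <;> simp_all
          _ ≤ _ := card_union_le _ _
          _ = _ := by rw [h3]
      have h3 : prob (fun x : Fin n → Bool => Bool.xor (E (xr x a)) (E x)) ≤ 2 * prob E := by
        unfold prob
        rw [← mul_div_assoc]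
        refine div_le_div_of_nonneg_right ?_ (Nat.cast_nonneg _)
        have h4 : ((univ.filter fun x : Fin n → Bool =>
            Bool.xor (E (xr x a)) (E x) = true).card : ℝ) ≤
            (univ.filter fun x => E x = true).card + (univ.filter fun x => E x = true).card := by
          exact_mod_cast h2
        linarith
      rw [pow_succ]
      linarith

end Pool.Agent.MP_ca1109_lc.Nb
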