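import Pool.Agent.MP_ca1109_lc.Nb.VD
import Pool.Agent.MP_ca1109_lc.Nb.CH
import Pool.Agent.MP_ca1109_lc.Nb.RM
import Pool.Agent.MP_ca1109_lc.Nb.AV
import Pool.Agent.MP_ca1109_lc.Nb.LF

/-!
# Every string which fools polynomials of degree at most `d`, such as the sum of `d` small-biased
# strings, fools the class
-/

namespace Pool.Agent.MP_ca1109_lc.Nb

open Finset Pool.Agent.MP_ca1109_lc.Xs

variable {n : ℕ}

/-! ## Masses -/

/-- The mass of a set for a weighted random string. -/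
def ms {ι : Type*} [Fintype ι] (w : ι → ℝ) (Z : ι → Fin n → Bool) (A : (Fin n → Bool) → Prop)
    [DecidablePred A] : ℝ := ∑ i, if A (Z i) then w i else 0

theorem ms_nonneg {ι : Type*} [Fintype ι] {w : ι → ℝ} (hw : ∀ i, 0 ≤ w i) (Z : ι → Fin n → Bool)
    (A : (Fin n → Bool) → Prop) [DecidablePred A] : 0 ≤ ms w Z A := by
  unfold ms
  refine sum_nonneg fun i _ => ?_
  split_ifs
  · exact hw i
  · exact le_rfl

theorem ms_mono {ι : Type*} [Fintype ι] {w : ι → ℝ} (hw : ∀ i, 0 ≤ w i) (Z : ι → Fin n → Bool)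
    {A B : (Fin n → Bool) → Prop} [DecidablePred A] [DecidablePred B] (h : ∀ x, A x → B x) :
    ms w Z A ≤ ms w Z B := by
  unfold ms
  refine sum_le_sum fun i _ => ?_
  split_ifs with h1 h2
  · exact le_rfl
  · exact absurd (h _ h1) h2
  · exact hw i
  · exact le_rfl

theorem ms_congr {ι : Type*} [Fintype ι] {w : ι → ℝ} (Z : ι → Fin n → Bool)
    {A B : (Fin n → Bool) → Prop} [DecidablePred A] [DecidablePred B] (h : ∀ x, A x ↔ B x) :
    ms w Z A = ms w Z B := by
  unfold ms
  refine sum_congr rfl fun i _ => ?_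
  by_cases h1 : A (Z i)
  · rw [if_pos h1, if_pos ((h _).1 h1)]
  · rw [if_neg h1, if_neg fun h2 => h1 ((h _).2 h2)]

theorem ms_part {ι : Type*} [Fintype ι] {w : ι → ℝ} (Z : ι → Fin n → Bool) {N : ℕ}
    {A : Fin N → (Fin n → Bool) → Prop} [∀ j, DecidablePred (A j)] (hA : ∀ x, ∃! j, A j x)
    (B : (Fin n → Bool) → Prop) [DecidablePred B] :
    ∑ j, ms w Z (fun x => A j x ∧ B x) = ms w Z B := by
  unfold ms
  rw [sum_comm]
  refine sum_congr rfl fun i _ => ?_
  obtain ⟨j, hj, hu⟩ := hA (Z i)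
  rw [sum_eq_single j]
  · by_cases hB : B (Z i)
    · rw [if_pos ⟨hj, hB⟩, if_pos hB]
    · rw [if_neg fun h => hB h.2, if_neg hB]
  · intro j' _ hne
    exact if_neg fun h => hne (hu j' h.1)
  · intro h
    exact absurd (mem_univ j) h

theorem ms_part' {ι : Type*} [Fintype ι] {w : ι → ℝ} (Z : ι → Fin n → Bool) {N : ℕ}
    {A : Fin N → (Fin n → Bool) → Prop} [∀ j, DecidablePred (A j)] (hA : ∀ x, ∃! j, A j x) :
    ∑ j, ms w Z (A j) = ∑ i, w i := by
  have h1 := ms_part (w := w) Z hA fun _ => True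
  have h2 : ms w Z (fun _ => True) = ∑ i, w i := by
    unfold ms
    exact sum_congr rfl fun i _ => if_pos trivial
  rw [← h2, ← h1]
  exact sum_congr rfl fun j _ => ms_congr Z fun x => ⟨fun h => ⟨h, trivial⟩, fun h => h.1⟩

/-- The uniform weights. -/
noncomputable def uw (n : ℕ) : (Fin n → Bool) → ℝ := fun _ => 1 / 2 ^ n

theorem uw_nonneg (x : Fin n → Bool) : 0 ≤ uw n x := by
  unfold uw
  positivity

theorem uw_sum : ∑ x, uw n x = 1 := by
  unfold uw
  rw [sum_const, card_univ, nsmul_eq_mul]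
  simp

theorem ms_uw (A : (Fin n → Bool) → Prop) [DecidablePred A] :
    ms (uw n) (fun x => x) A = prob fun x => decide (A x) := by
  rw [prob_eq_avg, avg_sum]
  unfold ms uw
  refine sum_congr rfl fun x _ => ?_
  by_cases h : A x <;> simp [ind, h]

theorem ms_uw' (f : (Fin n → Bool) → Bool) :
    ms (uw n) (fun x => x) (fun x => f x = true) = prob f := by
  rw [ms_uw]
  congr 1
  funext x
  simp

theorem avg_ite (A : (Fin n → Bool) → Prop) [DecidablePred A] (v : (Fin n → Bool) → ℝ) :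
    avg (fun x => if A x then v x else 0) = ∑ x, if A x then uw n x * v x else 0 := by
  rw [avg_sum]
  unfold uw
  refine sum_congr rfl fun x _ => ?_
  split_ifs
  · rfl
  · rw [mul_zero]

theorem prob_nn (f : (Fin n → Bool) → Bool) : 0 ≤ prob f := by
  rw [← ms_uw']
  exact ms_nonneg uw_nonneg _ _

theorem prob_le (f : (Fin n → Bool) → Bool) : prob f ≤ 1 := by
  rw [← ms_uw', ← uw_sum (n := n)]
  unfold ms
  refine sum_le_sum fun x _ => ?_
  split_ifs
  · exact le_rfl
  · exact uw_nonneg x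

theorem small_avg {c m : ℕ} {β : ℝ} {q : Fin c → (Fin n → Bool) → Bool}
    {Q : Fin m → (Fin n → Bool) → Bool} (h : SmallOn β q Q) {S : Finset (Fin m)}
    (hS : S.Nonempty) :
    |avg (fun x => if ∀ i, q i x = true then sg (par S fun i => Q i x) else 0)| ≤ β := by
  have h1 := h S hS
  rw [prob_eq_avg, prob_eq_avg, avg_sum, avg_sum, ← sum_sub_distrib, ← abs_neg, ← sum_neg_distrib] at h1
  rw [avg_sum]
  refine le_trans (le_of_eq ?_) h1
  congr 1
  refine sum_congr rfl fun x _ => ?_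
  by_cases hx : ∀ i, q i x = true
  · rw [if_pos hx]
    cases par S fun i => Q i x <;> simp [ind, sg, hx]
  · rw [if_neg hx]
    simp [ind, hx]

theorem clog_bound {n : ℕ} (hn : 1 ≤ n) : (2 : ℝ) ^ Nat.clog 2 n ≤ ((n : ℝ) + 1) ^ 2 := by
  have hn' : (1 : ℝ) ≤ n := by exact_mod_cast hn
  rcases Nat.lt_or_ge 1 n with h | h
  · have h1 := Nat.pow_pred_clog_lt_self (b := 2) (by norm_num) h
    have h2 : 1 ≤ Nat.clog 2 n := Nat.clog_pos (by norm_num) h
    have h3 : 2 ^ Nat.clog 2 n < 2 * n := by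
      obtain ⟨t, ht⟩ : ∃ t, Nat.clog 2 n = t + 1 := ⟨Nat.clog 2 n - 1, by omega⟩
      rw [ht] at h1 ⊢
      rw [Nat.pred_succ] at h1
      rw [pow_succ]
      omega
    have h4 : (2 : ℝ) ^ Nat.clog 2 n < 2 * n := by exact_mod_cast h3
    nlinarith
  · have h1 : n = 1 := by omega
    subst h1
    norm_num

theorem sum_sg {w : (Fin n → Bool) → ℝ} (hw : ∑ x, w x = 1) (q : (Fin n → Bool) → Bool) :
    ∑ x, w x * sg (q x) = 1 - 2 * ∑ x, if q x = true then w x else 0 := by
  rw [← hw, mul_sum, ← sum_sub_distrib]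
  refine sum_congr rfl fun x _ => ?_
  cases q x
  · simp [sg]
  · simp only [sg, if_true]
    ring

theorem avg_sg (q : (Fin n → Bool) → Bool) : avg (fun x => sg (q x)) = 1 - 2 * prob q := by
  rw [avg_sum, ← ms_uw']
  exact sum_sg uw_sum q

/-! ## The theorem for `1 ≤ n` and `0 ≤ δ` -/

theorem main_pos (r B k h d : ℕ) {ε : ℝ} (hε : 0 < ε) : ∃ C : ℕ, ∀ n : ℕ, 1 ≤ n → ∀ δ : ℝ, 0 ≤ δ →
    δ * ((n : ℝ) + 1) ^ C ≤ 1 → ∀ w : (Fin n → Bool) → ℝ, FoolsDeg d δ w →
      ∀ f : (Fin n → Bool) → Bool, PolyTest r B k h d δ n f →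
        |ms w (fun x => x) (fun x => f x = true) -
          ms (uw n) (fun x => x) (fun x => f x = true)| ≤ ε := by
  classical
  obtain ⟨C₀, h₀⟩ := small_bias r B k h (show 0 < ε / 8 by positivity)
  obtain ⟨T, hT⟩ := exists_nat_gt (8 / ε)
  obtain ⟨s, hs⟩ := exists_nat_gt (12 / ε)
  have hT0 : (0 : ℝ) < T := lt_trans (by positivity) hT
  have hTε : 2 / (T : ℝ) ≤ ε / 4 := by
    rw [div_le_iff₀ hT0]
    rw [div_lt_iff₀ hε] at hT
    linarith
  have hs2 : 12 / ε ≤ (2 : ℝ) ^ s := by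
    have : (s : ℝ) < 2 ^ s := by exact_mod_cast Nat.lt_two_pow_self
    linarith
  obtain ⟨a, ha⟩ : ∃ a : ℕ, a = 2 * (T * h * d) := ⟨_, rfl⟩
  obtain ⟨b, hb⟩ : ∃ b : ℕ, b = (h + 1) * C₀ := ⟨_, rfl⟩
  obtain ⟨A, hA⟩ : ∃ A : ℕ, A = a + b + 2 + s := ⟨_, rfl⟩
  refine ⟨A + 1, fun n hn δ hδ hδC w hp f hf => ?_⟩
  obtain ⟨N, c, m, q, Q, g, hu, hav, hq, hQ, hm, hS, hg, hf⟩ := hf
  obtain ⟨M, hM⟩ : ∃ M : ℝ, M = (n : ℝ) + 1 := ⟨_, rfl⟩
  have hn' : (1 : ℝ) ≤ n := by exact_mod_cast hn
  have hM2 : 2 ≤ M := by rw [hM]; linarith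
  have hM1 : 1 ≤ M := by linarith
  have hM0 : 0 < M := by linarith
  have hw0 : ∀ x, 0 ≤ w x := hp.1
  have hw1 : ∑ x, w x = 1 := hp.2.1
  obtain ⟨η, hη⟩ : ∃ η : ℝ, η = 1 / M ^ A := ⟨_, rfl⟩
  have hη0 : 0 < η := by rw [hη]; positivity
  have hδ2 : 2 * δ ≤ η := by
    rw [hη, le_div_iff₀ (by positivity)]
    rw [← hM, pow_succ] at hδC
    have h2 : δ * M ^ A * 2 ≤ δ * (M ^ A * M) := by
      rw [← mul_assoc]
      exact mul_le_mul_of_nonneg_left hM2 (by positivity)
    linarith
  have hδη : δ ≤ η := by linarith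
  have hV : ∀ p' : (Fin n → Bool) → Bool, Deg d p' →
      |∑ x, w x * sg (p' x) - avg (fun x => sg (p' x))| ≤ η := by
    intro p' hp'
    have h2 := hp.2.2 p' hp'
    rw [sum_sg hw1, avg_sg]
    refine le_trans (le_of_eq ?_) ((mul_le_mul_of_nonneg_left h2 zero_le_two).trans hδ2)
    rw [← abs_two, ← abs_mul, abs_two, ← abs_neg]
    congr 1
    ring
  -- the numbers
  obtain ⟨X, hX⟩ : ∃ X : ℝ, X = 1 / M ^ a := ⟨_, rfl⟩
  have hX0 : 0 < X := by rw [hX]; positivity
  have hMA : M ^ A = M ^ a * M ^ b * M ^ 2 * M ^ s := by rw [hA, pow_add, pow_add, pow_add]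
  have hb1 : 1 ≤ M ^ b := one_le_pow₀ hM1
  have hs1 : 1 ≤ M ^ s := one_le_pow₀ hM1
  have hsq : 4 ≤ M ^ 2 := by nlinarith
  have hηb : η * M ^ b ≤ X / 4 := by
    have e1 : η * M ^ b = X * (1 / (M ^ 2 * M ^ s)) := by
      rw [hη, hX, hMA]
      field_simp
    rw [e1]
    have e2 : 1 / (M ^ 2 * M ^ s) ≤ 1 / 4 := by
      refine one_div_le_one_div_of_le (by norm_num) ?_
      nlinarith
    have := mul_le_mul_of_nonneg_left e2 hX0.le
    linarith
  have hηX : η ≤ X / 4 := (le_mul_of_one_le_right hη0.le hb1).trans hηb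
  have hKη : M ^ a * η ≤ ε / 12 := by
    have e1 : M ^ a * η = 1 / (M ^ b * M ^ 2 * M ^ s) := by
      rw [hη, hMA]
      field_simp
    rw [e1, div_le_iff₀ (by positivity)]
    have e2 : (2 : ℝ) ^ s ≤ M ^ s := pow_le_pow_left₀ (by norm_num) hM2 s
    have e3 : 12 / ε ≤ M ^ b * M ^ 2 * M ^ s := by
      calc 12 / ε ≤ 1 * 1 * M ^ s := by linarith
        _ ≤ M ^ b * M ^ 2 * M ^ s := by
          refine mul_le_mul_of_nonneg_right ?_ (by positivity)
          exact mul_le_mul hb1 (by linarith) zero_le_one (by positivity)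
    have e4 : ε / 12 * (12 / ε) ≤ ε / 12 * (M ^ b * M ^ 2 * M ^ s) :=
      mul_le_mul_of_nonneg_left e3 (by positivity)
    have e5 : ε / 12 * (12 / ε) = 1 := by field_simp
    linarith
  -- the masses
  have hGP : ∀ j, |ms w (fun x => x) (fun x => ∀ i, q j i x = true) -
      ms (uw n) (fun x => x) (fun x => ∀ i, q j i x = true)| ≤ η := by
    intro j
    have h2 := chq (w := w) (Z := fun x => x) hV (hq j) ((deg_const false).mono (Nat.zero_le d))
    rw [avg_ite] at h2
    unfold ms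
    simpa [sg] using h2
  have hβ : ∀ j, ∀ S : Finset (Fin (m j)), S.Nonempty →
      |∑ x, if ∀ i, q j i x = true then w x * sg (par S fun i => Q j i x) else 0| ≤
        η + δ := by
    intro j S hSn
    have h2 := chq (w := w) (Z := fun x => x) hV (hq j) (deg_par (hQ j) S)
    have h3 := small_avg (hS j) hSn
    rw [abs_le] at h2 h3 ⊢
    constructor <;> linarith [h2.1, h2.2, h3.1, h3.2]
  have hβ' : ∀ j, ∀ S : Finset (Fin (m j)), S.Nonempty →
      |∑ x, if ∀ i, q j i x = true then uw n x * sg (par S fun i => Q j i x) else 0| ≤ δ := by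
    intro j S hSn
    have h3 := small_avg (hS j) hSn
    rwa [avg_ite] at h3
  have hmb : ∀ j, ((m j : ℝ) + 1) ^ C₀ ≤ M ^ b := by
    intro j
    have h2 : n ^ (h + 1) + 1 ≤ (n + 1) ^ (h + 1) := by
      have h3 : n ^ h ≤ (n + 1) ^ h := Nat.pow_le_pow_left (Nat.le_succ n) h
      have h4 : 1 ≤ (n + 1) ^ h := Nat.one_le_pow _ _ (Nat.succ_pos n)
      have h5 : n ^ h * n ≤ (n + 1) ^ h * n := Nat.mul_le_mul_right n h3
      calc n ^ (h + 1) + 1 = n ^ h * n + 1 := by rw [pow_succ]
        _ ≤ (n + 1) ^ h * n + (n + 1) ^ h := Nat.add_le_add h5 h4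
        _ = (n + 1) ^ (h + 1) := by rw [pow_succ]; ring
    have h3 : m j + 1 ≤ (n + 1) ^ (h + 1) := (Nat.add_le_add_right (hm j) 1).trans h2
    have h4 : (m j : ℝ) + 1 ≤ M ^ (h + 1) := by
      rw [hM]
      exact_mod_cast h3
    calc ((m j : ℝ) + 1) ^ C₀ ≤ (M ^ (h + 1)) ^ C₀ := pow_le_pow_left₀ (by positivity) h4 _
      _ = M ^ b := by rw [hb, ← pow_mul]
  have hdens : ∀ j, (c j : ℝ) ≤ T * (h * Nat.clog 2 n) →
      0 < ms (uw n) (fun x => x) (fun x => ∀ i, q j i x = true) →
      X ≤ ms (uw n) (fun x => x) (fun x => ∀ i, q j i x = true) := by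
    intro j hcj hpos
    have h2 : c j ≤ T * (h * Nat.clog 2 n) := by exact_mod_cast hcj
    have h3 : ∃ x, (fun x => decide (∀ i, q j i x = true)) x = true := by
      by_contra hcon
      push Not at hcon
      have h4 : ms (uw n) (fun x => x) (fun x => ∀ i, q j i x = true) = 0 := by
        unfold ms
        refine sum_eq_zero fun x _ => if_neg fun h5 => hcon x ?_
        simpa using h5
      linarith
    have h4 := rm_density (deg_all (hq j)) h3
    rw [ms_uw]
    refine le_trans ?_ h4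
    rw [hX, one_div_pow]
    refine one_div_le_one_div_of_le (by positivity) ?_
    calc (2 : ℝ) ^ (c j * d) ≤ 2 ^ (T * (h * Nat.clog 2 n) * d) :=
          pow_le_pow_right₀ (by norm_num) (Nat.mul_le_mul_right d h2)
      _ = (2 ^ Nat.clog 2 n) ^ (T * h * d) := by
          rw [← pow_mul]
          congr 1
          ring
      _ ≤ (M ^ 2) ^ (T * h * d) := by
          rw [hM]
          exact pow_le_pow_left₀ (by positivity) (clog_bound hn) _
      _ = M ^ a := by rw [ha, ← pow_mul]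
  have hD0 : (0 : ℝ) ≤ h * Nat.clog 2 n := by positivity
  have key := av_sets (N := N) (K := (n + 1) ^ a)
    (P := fun j => ms (uw n) (fun x => x) (fun x => ∀ i, q j i x = true))
    (G := fun j => ms w (fun x => x) (fun x => ∀ i, q j i x = true))
    (F := fun j => ms (uw n) (fun x => x) (fun x => (∀ i, q j i x = true) ∧ f x = true))
    (F' := fun j => ms w (fun x => x) (fun x => (∀ i, q j i x = true) ∧ f x = true))
    (c := fun j => (c j : ℝ)) (D := h * Nat.clog 2 n) (T := T) (ε := ε / 8) (η := η) hT0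
    (by positivity) hη0.le (fun j => ms_nonneg uw_nonneg _ _) (fun j => ms_nonneg hw0 _ _)
    (by rw [ms_part' (fun x => x) hu]; exact uw_sum) (by rw [ms_part' (fun x => x) hu]; exact hw1)
    (fun j => Nat.cast_nonneg _) hD0 (by simpa only [ms_uw] using hav)
    (fun j => ⟨ms_nonneg uw_nonneg _ _, ms_mono uw_nonneg _ fun x hx => hx.1⟩)
    (fun j => ⟨ms_nonneg hw0 _ _, ms_mono hw0 _ fun x hx => hx.1⟩) ?_ ?_ (fun j _ => hGP j) ?_
  · rw [ms_part (fun x => x) hu fun x => f x = true, ms_part (fun x => x) hu fun x => f x = true]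
      at key
    refine key.trans ?_
    have h2 : (((n + 1) ^ a : ℕ) : ℝ) = M ^ a := by rw [hM]; push_cast; rfl
    rw [h2]
    linarith
  · -- the number of the sets
    intro J hJ
    have h2 : (J.card : ℝ) * X ≤ 1 := by
      calc (J.card : ℝ) * X = ∑ j ∈ J, X := by rw [sum_const, nsmul_eq_mul]
        _ ≤ ∑ j ∈ J, ms (uw n) (fun x => x) (fun x => ∀ i, q j i x = true) :=
            sum_le_sum fun j hj => hdens j (hJ j hj).1 (hJ j hj).2
        _ ≤ ∑ j, ms (uw n) (fun x => x) (fun x => ∀ i, q j i x = true) :=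
            sum_le_sum_of_subset_of_nonneg (subset_univ _) fun j _ _ => ms_nonneg uw_nonneg _ _
        _ = 1 := by rw [ms_part' (fun x => x) hu]; exact uw_sum
    rw [hX, mul_one_div, div_le_one (by positivity), hM] at h2
    exact_mod_cast h2
  · -- the empty sets
    intro j hj
    have hj' : ms (uw n) (fun x => x) (fun x => ∀ i, q j i x = true) = 0 := hj
    have h2 : ∀ x : Fin n → Bool, ¬ ∀ i, q j i x = true := by
      intro x hx
      unfold ms at hj'
      have h3 := (sum_eq_zero_iff_of_nonneg (fun y _ => by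
        split_ifs
        · exact uw_nonneg _
        · exact le_rfl)).1 hj' x (mem_univ x)
      rw [if_pos hx] at h3
      unfold uw at h3
      have : (0 : ℝ) < 1 / 2 ^ n := by positivity
      linarith
    show ms w (fun x => x) (fun x => ∀ i, q j i x = true) = 0
    unfold ms
    exact sum_eq_zero fun x _ => if_neg (h2 _)
  · -- one set
    intro j hcj hPj
    have hXP := hdens j hcj hPj
    have hG := hGP j
    have hfg : ∀ x, ((∀ i, q j i x = true) ∧ f x = true) ↔
        ((∀ i, q j i x = true) ∧ g j (fun i => Q j i x) = true) := fun x =>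
      ⟨fun h => ⟨h.1, by rw [← hf j x h.1]; exact h.2⟩, fun h => ⟨h.1, by rw [hf j x h.1]; exact h.2⟩⟩
    show |ms w (fun x => x) (fun x => (∀ i, q j i x = true) ∧ f x = true) -
      ms (uw n) (fun x => x) (fun x => (∀ i, q j i x = true) ∧ f x = true)| ≤
      ε / 8 * (ms (uw n) (fun x => x) (fun x => ∀ i, q j i x = true) +
        ms w (fun x => x) (fun x => ∀ i, q j i x = true)) + η
    rw [ms_congr (w := w) (fun x => x) hfg, ms_congr (w := uw n) (fun x => x) hfg]
    obtain ⟨P, hP⟩ : ∃ P : ℝ, P = ms (uw n) (fun x => x) (fun x => ∀ i, q j i x = true) := ⟨_, rfl⟩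
    obtain ⟨G, hGe⟩ : ∃ G : ℝ, G = ms w (fun x => x) (fun x => ∀ i, q j i x = true) := ⟨_, rfl⟩
    rw [← hP] at hXP hG hPj
    rw [← hGe] at hG
    rw [← hP, ← hGe]
    have hG0 : X / 2 ≤ G := by
      have := (abs_le.1 hG).1
      linarith
    have h2 := leaf_set (C := C₀) (r := r) (B := B) (k := k) (h := h) (ε := ε / 8) hw0
      (Z := fun x => x) (q := q j) (Q := Q j) (β := η + δ) (W := G) hGe (by linarith) (hβ j) (by
        calc (η + δ) * ((m j : ℝ) + 1) ^ C₀ ≤ (2 * η) * M ^ b :=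
              mul_le_mul (by linarith) (hmb j) (by positivity) (by positivity)
          _ ≤ G := by linarith)
      (fun p' δ' h3 h4 g' hg' => h₀ _ p' δ' h4 h3 g' hg') (hg j)
    have h3 := leaf_set (C := C₀) (r := r) (B := B) (k := k) (h := h) (ε := ε / 8) (uw_nonneg (n := n))
      (Z := fun x => x) (q := q j) (Q := Q j) (β := δ) (W := P) hP (by linarith) (hβ' j) (by
        calc δ * ((m j : ℝ) + 1) ^ C₀ ≤ η * M ^ b :=
              mul_le_mul hδη (hmb j) (by positivity) hη0.le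
          _ ≤ P := by linarith)
      (fun p' δ' h3 h4 g' hg' => h₀ _ p' δ' h4 h3 g' hg') (hg j)
    have h4 : |(G - P) * prob (g j)| ≤ η := by
      rw [abs_mul, abs_of_nonneg (prob_nn (g j))]
      calc |G - P| * prob (g j) ≤ |G - P| * 1 :=
            mul_le_mul_of_nonneg_left (prob_le (g j)) (abs_nonneg _)
        _ ≤ η := by rw [mul_one]; exact hG
    unfold ms
    rw [abs_le] at h2 h3 h4 ⊢
    have e1 : (G - P) * prob (g j) = G * prob (g j) - P * prob (g j) := by ring
    rw [e1] at h4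
    constructor <;> linarith [h2.1, h2.2, h3.1, h3.2, h4.1, h4.2]

theorem SmallOn.mono {c m : ℕ} {β β' : ℝ} (hb : β ≤ β') {q : Fin c → (Fin n → Bool) → Bool}
    {Q : Fin m → (Fin n → Bool) → Bool} (h : SmallOn β q Q) : SmallOn β' q Q :=
  fun S hS => (h S hS).trans hb

theorem PolyTest.mono {r B k h d : ℕ} {β β' : ℝ} (hb : β ≤ β') {f : (Fin n → Bool) → Bool}
    (hf : PolyTest r B k h d β n f) : PolyTest r B k h d β' n f := by
  obtain ⟨N, c, m, q, Q, g, hu, hav, hq, hQ, hm, hS, hg, hf⟩ := hf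
  exact ⟨N, c, m, q, Q, g, hu, hav, hq, hQ, hm, fun j => (hS j).mono hb, hg, hf⟩

/-- Every string which fools the polynomials of degree at most `d` with polynomially small error
fools the class. -/
theorem main_fd (r B k h d : ℕ) {ε : ℝ} (hε : 0 < ε) : ∃ C : ℕ, ∀ (n : ℕ) (δ : ℝ),
    δ * ((n : ℝ) + 1) ^ C ≤ 1 → ∀ p : (Fin n → Bool) → ℝ, FoolsDeg d δ p →
      ∀ f : (Fin n → Bool) → Bool, PolyTest r B k h d δ n f →
        |(∑ x, if f x = true then p x else 0) - prob f| ≤ ε := by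
  obtain ⟨C, hC⟩ := main_pos r B k h d hε
  refine ⟨C, fun n δ hδC p hp f hf => ?_⟩
  have hδ : 0 ≤ δ := (abs_nonneg _).trans (hp.2.2 _ ((deg_const false).mono (Nat.zero_le d)))
  rcases Nat.eq_zero_or_pos n with rfl | hn
  · have h1 : ∀ x : Fin 0 → Bool, f x = f fun i => i.elim0 := fun x => by
      congr 1
      funext i
      exact i.elim0
    have h2 : prob f = if f (fun i => i.elim0) = true then 1 else 0 := by
      rw [← ms_uw']
      unfold ms
      simp only [h1]
      split_ifs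
      · exact uw_sum
      · simp
    have h3 : (∑ x, if f x = true then p x else 0) =
        if f (fun i => i.elim0) = true then 1 else 0 := by
      simp only [h1]
      split_ifs
      · exact hp.2.1
      · simp
    rw [h2, h3, sub_self, abs_zero]
    exact hε.le
  · have h1 := hC n hn δ hδ hδC p hp f hf
    rw [ms_uw'] at h1
    exact h1

/-- The law of the sum of independent strings. -/
def slaw {d : ℕ} (p : Fin d → (Fin n → Bool) → ℝ) (z : Fin n → Bool) : ℝ :=
  ∑ x : Fin d → Fin n → Bool, if xs x = z then ∏ j, p j (x j) else 0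

theorem slaw_sum {d : ℕ} (p : Fin d → (Fin n → Bool) → ℝ) (φ : (Fin n → Bool) → ℝ) :
    ∑ z, slaw p z * φ z = dsum p φ := by
  unfold slaw dsum
  simp only [sum_mul, ite_mul, zero_mul]
  rw [sum_comm]
  refine sum_congr rfl fun x _ => ?_
  rw [sum_ite_eq]
  rw [if_pos (mem_univ _)]

theorem slaw_ite {d : ℕ} (p : Fin d → (Fin n → Bool) → ℝ) (f : (Fin n → Bool) → Bool) :
    (∑ z, if f z = true then slaw p z else 0) =
      ∑ x : Fin d → Fin n → Bool, if f (xs x) = true then ∏ j, p j (x j) else 0 := by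
  have h1 := slaw_sum p fun z => if f z = true then 1 else 0
  unfold dsum at h1
  simp only [mul_ite, mul_one, mul_zero] at h1
  exact h1

/-- Sums of `d` strings of polynomially small bias fool the polynomials of degree at most `d` with
polynomially small error. -/
theorem slaw_fools (d A : ℕ) : ∃ C : ℕ, ∀ n : ℕ, 1 ≤ n → ∀ δ : ℝ, 0 ≤ δ →
    δ * ((n : ℝ) + 1) ^ C ≤ 1 → ∀ p : Fin d → (Fin n → Bool) → ℝ, (∀ j, SmallBias n δ (p j)) →
      FoolsDeg d (1 / ((n : ℝ) + 1) ^ A) (slaw p) := by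
  obtain ⟨C, hC⟩ := vio d A
  refine ⟨C, fun n hn δ hδ hδC p hp => ⟨fun z => ?_, ?_, fun q hq => ?_⟩⟩
  · unfold slaw
    refine sum_nonneg fun x _ => ?_
    split_ifs
    · exact prod_nonneg' hp x
    · exact le_rfl
  · have h1 := slaw_sum p fun _ => 1
    unfold dsum at h1
    simp only [mul_one] at h1
    rw [h1]
    exact prod_sum_one hp
  · have h1 := hC n hn δ hδ hδC p hp q hq
    have h2 : dsum p (fun x => sg (q x)) = 1 - 2 * ∑ z, if q z = true then slaw p z else 0 := by
      rw [← slaw_sum]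
      have h3 : (1 : ℝ) = ∑ z, slaw p z := by
        have h4 := slaw_sum p fun _ => 1
        unfold dsum at h4
        simp only [mul_one] at h4
        rw [h4]
        exact (prod_sum_one hp).symm
      exact sum_sg h3.symm q
    rw [h2, avg_sg, ← le_div_iff₀ (by positivity)] at h1
    have h5 : 1 - 2 * (∑ z, if q z = true then slaw p z else 0) - (1 - 2 * prob q) =
        -(2 * ((∑ z, if q z = true then slaw p z else 0) - prob q)) := by ring
    rw [h5, abs_neg, abs_mul, abs_two] at h1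
    have h6 := abs_nonneg ((∑ z, if q z = true then slaw p z else 0) - prob q)
    linarith

/-- The sum of `d` strings of polynomially small bias fools the class. -/
theorem main_nb (r B k h d : ℕ) {ε : ℝ} (hε : 0 < ε) : ∃ C : ℕ, ∀ (n : ℕ) (δ : ℝ),
    δ * ((n : ℝ) + 1) ^ C ≤ 1 → ∀ p : Fin d → (Fin n → Bool) → ℝ, (∀ j, SmallBias n δ (p j)) →
      ∀ f : (Fin n → Bool) → Bool, PolyTest r B k h d δ n f →
        |(∑ x : Fin d → Fin n → Bool, if f (xs x) = true then ∏ j, p j (x j) else 0) - prob f| ≤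
          ε := by
  obtain ⟨C, hC⟩ := main_fd r B k h d hε
  obtain ⟨C', hC'⟩ := slaw_fools d C
  refine ⟨max C C', fun n δ hδC p hp f hf => ?_⟩
  rcases Nat.eq_zero_or_pos n with rfl | hn
  · have h1 : ∀ x : Fin 0 → Bool, f x = f fun i => i.elim0 := fun x => by
      congr 1
      funext i
      exact i.elim0
    have h2 : prob f = if f (fun i => i.elim0) = true then 1 else 0 := by
      rw [← ms_uw']
      unfold ms
      simp only [h1]
      split_ifs
      · exact uw_sum
      · simp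
    have h3 : (∑ x : Fin d → Fin 0 → Bool, if f (xs x) = true then ∏ j, p j (x j) else 0) =
        if f (fun i => i.elim0) = true then 1 else 0 := by
      simp only [h1]
      split_ifs
      · exact prod_sum_one hp
      · simp
    rw [h2, h3, sub_self, abs_zero]
    exact hε.le
  · have hM1 : (1 : ℝ) ≤ (n : ℝ) + 1 := by
      have : (0 : ℝ) ≤ n := Nat.cast_nonneg n
      linarith
    have hδ' : ∀ C'' ≤ max C C', max δ 0 * ((n : ℝ) + 1) ^ C'' ≤ 1 := by
      intro C'' h1
      rcases le_total δ 0 with h2 | h2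
      · rw [max_eq_right h2, zero_mul]
        exact zero_le_one
      · rw [max_eq_left h2]
        exact (mul_le_mul_of_nonneg_left (pow_le_pow_right₀ hM1 h1) h2).trans hδC
    have h1 := hC' n hn (max δ 0) (le_max_right _ _) (hδ' C' (le_max_right _ _)) p
      fun j => ⟨(hp j).1, (hp j).2.1, fun S hS hc => ((hp j).2.2 S hS hc).trans (le_max_left _ _)⟩
    have h2 : δ ≤ 1 / ((n : ℝ) + 1) ^ C := by
      refine (le_max_left δ 0).trans ?_
      rw [le_div_iff₀ (by positivity)]
      exact hδ' C (le_max_left _ _)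
    have h3 := hC n (1 / ((n : ℝ) + 1) ^ C) (by rw [one_div, inv_mul_cancel₀ (by positivity)])
      (slaw p) h1 f (hf.mono h2)
    rw [slaw_ite] at h3
    exact h3

end Pool.Agent.MP_ca1109_lc.Nb
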