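import Pool.Agent.MP_ca1109_lc.Nb.LG
import Pool.Agent.MP_ca1109_lc.Nb.MN

/-!
# The four statements together
-/

namespace Pool.Agent.MP_ca1109_lc.Nb

open Pool.Agent.MP_ca1109_lc.Mpg
open Pool.Agent.MP_ca1109_lc.Xs (SmallBias SmallBias.mono PartTest mn_pow short_bias)

theorem final_nb (r B k h d : ℕ) {ε : ℝ} (hε : 0 < ε) :
    ∃ C : ℕ, (∀ (n : ℕ) (δ : ℝ), δ * ((n : ℝ) + 1) ^ C ≤ 1 →
      (∀ p : (Fin n → Bool) → ℝ,
        (SmallBias (C * Nat.clog 2 (n + 1)) δ p → ∀ f : (Fin n → Bool) → Bool,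
          PartTest r 0 k h n f → |(∑ x, if f x = true then p x else 0) - prob f| ≤ ε) ∧
        (FoolsDeg d δ p → ∀ f : (Fin n → Bool) → Bool,
          PolyTest r B k h d δ n f → |(∑ x, if f x = true then p x else 0) - prob f| ≤ ε)) ∧
      ∀ p : Fin d → (Fin n → Bool) → ℝ, (∀ j, SmallBias n δ (p j)) →
        ∀ f : (Fin n → Bool) → Bool, PolyTest r B k h d δ n f →
          |(∑ x : Fin d → Fin n → Bool, if f (xs x) = true then ∏ j, p j (x j) else 0) -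
            prob f| ≤ ε) ∧
      LogGen (fun n => PolyTest r B k h d (1 / ((n : ℝ) + 1) ^ C) n) ε := by
  obtain ⟨C₁, h₁⟩ := short_bias r k h hε
  obtain ⟨C₂, h₂⟩ := main_fd r B k h d hε
  obtain ⟨C₃, h₃⟩ := main_nb r B k h d hε
  have e1 : C₁ ≤ max C₁ (max C₂ C₃) := le_max_left _ _
  have e2 : C₂ ≤ max C₁ (max C₂ C₃) := (le_max_left _ _).trans (le_max_right _ _)
  have e3 : C₃ ≤ max C₁ (max C₂ C₃) := (le_max_right _ _).trans (le_max_right _ _)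
  have h₄ : ∀ (n : ℕ) (δ : ℝ), δ * ((n : ℝ) + 1) ^ max C₁ (max C₂ C₃) ≤ 1 →
      ∀ p : Fin d → (Fin n → Bool) → ℝ, (∀ j, SmallBias n δ (p j)) →
        ∀ f : (Fin n → Bool) → Bool, PolyTest r B k h d δ n f →
          |(∑ x : Fin d → Fin n → Bool, if f (xs x) = true then ∏ j, p j (x j) else 0) -
            prob f| ≤ ε := fun n δ hδ => h₃ n δ (mn_pow e3 hδ)
  refine ⟨max C₁ (max C₂ C₃), fun n δ hδ => ⟨fun p => ⟨fun hp f hf => ?_, fun hp f hf => ?_⟩,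
    h₄ n δ hδ⟩, logGen_of_main r B k h d h₄⟩
  · exact h₁ n p δ (hp.mono (Nat.mul_le_mul_right _ e1)) (mn_pow e1 hδ) f hf
  · exact h₂ n δ (mn_pow e2 hδ) p hp f hf

end Pool.Agent.MP_ca1109_lc.Nb
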