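import Pool.Agent.MP_ca1109_lc.Nb.DG
import Pool.Agent.MP_ca1109_lc.Xs.MN

/-!
# The generator: the sum of `d` independent outputs of a small-bias generator
-/

namespace Pool.Agent.MP_ca1109_lc.Nb

open Finset Pool.Agent.H66 Pool.Agent.MP_ca1109_lc.Mpg Pool.Agent.MP_ca1109_lc.Agp
open Pool.Agent.MP_ca1109_lc.Xs (SmallBias par pr_odd)

variable {n : ℕ}

theorem xs_zero (x : Fin 0 → Fin n → Bool) : xs x = fun _ => false := by
  funext i
  unfold xs par
  simp

theorem xs_succ {d : ℕ} (x : Fin (d + 1) → Fin n → Bool) :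
    xs x = fun i => Bool.xor (x 0 i) (xs (fun j => x j.succ) i) := by
  funext i
  unfold xs par
  have h1 : (univ.filter fun j : Fin (d + 1) => x j i = true).card =
      (if x 0 i = true then 1 else 0) + (univ.filter fun j : Fin d => x j.succ i = true).card := by
    rw [Finset.card_filter, Finset.card_filter, Fin.sum_univ_succ]
  rw [h1, pr_odd]
  congr 1
  cases x 0 i <;> simp

/-- The expectation of `F` at the sum of `d` independent points with the laws `p j`. -/
def sumE {d : ℕ} (p : Fin d → (Fin n → Bool) → ℝ) (F : (Fin n → Bool) → ℝ) : ℝ :=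
  ∑ x : Fin d → Fin n → Bool, (∏ j, p j (x j)) * F (xs x)

theorem sumE_zero (p : Fin 0 → (Fin n → Bool) → ℝ) (F : (Fin n → Bool) → ℝ) :
    sumE p F = F fun _ => false := by
  unfold sumE
  rw [Fintype.sum_unique, xs_zero]
  simp only [univ_eq_empty, prod_empty, one_mul]

theorem sumE_succ {d : ℕ} (p : Fin (d + 1) → (Fin n → Bool) → ℝ) (F : (Fin n → Bool) → ℝ) :
    sumE p F = ∑ y, p 0 y *
      sumE (fun j : Fin d => p j.succ) fun z => F fun i => Bool.xor (y i) (z i) := by
  unfold sumE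
  rw [← (Fin.consEquiv fun _ : Fin (d + 1) => Fin n → Bool).sum_comp, Fintype.sum_prod_type]
  refine Finset.sum_congr rfl fun y _ => ?_
  rw [Finset.mul_sum]
  refine Finset.sum_congr rfl fun z _ => ?_
  rw [Fin.prod_univ_succ, xs_succ]
  simp only [Fin.consEquiv_apply, Fin.cons_zero, Fin.cons_succ]
  rw [mul_assoc]

/-! ## The law of the output -/

/-- The law of the output. -/
noncomputable def law (M : ℕ) (X : ℕ → Fin n → Bool) (x : Fin n → Bool) : ℝ :=
  nr M fun s => if X s = x then 1 else 0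

theorem law_sum (M : ℕ) (X : ℕ → Fin n → Bool) (F : (Fin n → Bool) → ℝ) :
    ∑ x, law M X x * F x = nr M fun s => F (X s) := by
  unfold law nr
  simp only [div_mul_eq_mul_div, Finset.sum_mul]
  rw [← Finset.sum_div, Finset.sum_comm]
  congr 1
  refine Finset.sum_congr rfl fun s _ => ?_
  simp only [ite_mul, one_mul, zero_mul]
  rw [Finset.sum_ite_eq univ (X s) F, if_pos (Finset.mem_univ _)]

theorem sgn_par (S : Finset (Fin n)) (x : Fin n → Bool) :
    Agp.sgn S x = ((if par S x = true then -1 else 1 : ℝ) : ℂ) := by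
  unfold Agp.sgn par
  rw [Finset.prod_ite, Finset.prod_const, Finset.prod_const_one, mul_one]
  by_cases h : Odd (S.filter fun i => x i = true).card
  · rw [h.neg_one_pow]
    simp [h]
  · rw [(Nat.not_odd_iff_even.1 h).neg_one_pow]
    simp [h]

theorem law_bias {M : ℕ} (hM : 0 < M) {X : ℕ → Fin n → Bool} {β : ℝ}
    (h : ∀ S : Finset (Fin n), S ≠ ∅ → ‖na M (fun p => Agp.sgn S (X p))‖ ≤ β) :
    SmallBias n β (law M X) := by
  refine ⟨fun x => ?_, ?_, fun S hS _ => ?_⟩
  · refine nr_nonneg fun s _ => ?_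
    split_ifs <;> norm_num
  · have h1 := law_sum M X fun _ => 1
    simp only [mul_one] at h1
    rw [h1, nr_const hM]
  · rw [law_sum M X fun x => if par S x = true then -1 else 1]
    have h1 := h S hS.ne_empty
    have h2 : na M (fun p => Agp.sgn S (X p)) =
        ((nr M fun s => if par S (X s) = true then -1 else 1 : ℝ) : ℂ) := by
      rw [nr_ofReal]
      exact na_congr fun p _ => sgn_par S (X p)
    rw [h2, Complex.norm_real, Real.norm_eq_abs] at h1
    exact h1

/-! ## The sum -/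

theorem xor_average_real (E₁ E₂ : ℕ → ℕ) (G₁ G₂ : ℕ → ℕ → ℕ → Bool) (n : ℕ)
    (f : (Fin n → Bool) → ℝ) :
    nr (2 ^ (E₁ n + E₂ n)) (fun p => f (out (xorG E₂ G₁ G₂) n p)) =
      nr (2 ^ E₁ n) (fun p => nr (2 ^ E₂ n) (fun q =>
        f (fun i => Bool.xor (out G₁ n p i) (out G₂ n q i)))) := by
  rw [pow_add]
  exact nr_mul (2 ^ E₁ n) (B := 2 ^ E₂ n) (by positivity)
    (fun p q => f (fun i => Bool.xor (out G₁ n p i) (out G₂ n q i)))

theorem ng_zero : NG (fun _ => 0) fun _ _ _ => false := by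
  refine ⟨PolyTime.const 0, ?_, ⟨1, fun n => ?_⟩, PolyTime.const false⟩
  · exact PolyTime.const 1
  · simp

theorem gen_sum {E : ℕ → ℕ} {G : ℕ → ℕ → ℕ → Bool} (h : NG E G) (d : ℕ) :
    ∃ E' G', NG E' G' ∧ ∀ (n : ℕ) (F : (Fin n → Bool) → ℝ),
      nr (2 ^ E' n) (fun s => F (out G' n s)) =
        sumE (fun _ : Fin d => law (2 ^ E n) (out G n)) F := by
  induction d with
  | zero =>
    refine ⟨fun _ => 0, fun _ _ _ => false, ng_zero, fun n F => ?_⟩
    rw [sumE_zero, pow_zero]
    exact nr_const one_pos _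
  | succ d ih =>
    obtain ⟨E', G', hG', H⟩ := ih
    refine ⟨_, _, Agp.NG.xor h hG', fun n F => ?_⟩
    rw [xor_average_real, sumE_succ]
    rw [law_sum (2 ^ E n) (out G n) fun y =>
      sumE (fun _ : Fin d => law (2 ^ E n) (out G n)) fun z => F fun i => Bool.xor (y i) (z i)]
    refine nr_congr fun s _ => ?_
    exact H n fun z => F fun i => Bool.xor (out G n s i) (z i)

/-- A generator whose output is the sum of `d` independent strings of polynomially small bias. -/
theorem gsum (d C : ℕ) : ∃ (E : ℕ → ℕ) (G : ℕ → ℕ → ℕ → Bool), NG E G ∧ ∀ n : ℕ,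
    ∃ p : Fin d → (Fin n → Bool) → ℝ, (∀ j, SmallBias n (1 / ((n : ℝ) + 1) ^ C) (p j)) ∧
      ∀ f : (Fin n → Bool) → Bool, nr (2 ^ E n) (fun s => ind (f (out G n s))) =
        ∑ x : Fin d → Fin n → Bool, if f (xs x) = true then ∏ j, p j (x j) else 0 := by
  obtain ⟨E, G, hG, H⟩ := Hyb.small_bias_poly C one_pos
  obtain ⟨E', G', hG', H'⟩ := gen_sum hG d
  refine ⟨E', G', hG', fun n => ⟨fun _ => law (2 ^ E n) (out G n), fun j =>
    law_bias (by positivity) (H n), fun f => ?_⟩⟩
  rw [H' n fun x => ind (f x)]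
  unfold sumE
  refine Finset.sum_congr rfl fun x _ => ?_
  cases h : f (xs x) <;> simp [ind, h]

end Pool.Agent.MP_ca1109_lc.Nb
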