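import Pool.Agent.MP_ca1109_lc.Nb.GN

/-!
# The generator for the class
-/

namespace Pool.Agent.MP_ca1109_lc.Nb

open Finset Pool.Agent.H66 Pool.Agent.MP_ca1109_lc.Mpg Pool.Agent.MP_ca1109_lc.Agp
open Pool.Agent.MP_ca1109_lc.Xs (SmallBias)

/-- If the sums of `d` strings of small bias fool the class, then one generator does. -/
theorem logGen_of_main (r B k h d : ℕ) {ε : ℝ} {C : ℕ} (H : ∀ (n : ℕ) (δ : ℝ),
    δ * ((n : ℝ) + 1) ^ C ≤ 1 → ∀ p : Fin d → (Fin n → Bool) → ℝ, (∀ j, SmallBias n δ (p j)) →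
      ∀ f : (Fin n → Bool) → Bool, PolyTest r B k h d δ n f →
        |(∑ x : Fin d → Fin n → Bool, if f (xs x) = true then ∏ j, p j (x j) else 0) - prob f| ≤
          ε) :
    LogGen (fun n => PolyTest r B k h d (1 / ((n : ℝ) + 1) ^ C) n) ε := by
  obtain ⟨E, G, hG, hp⟩ := gsum d C
  refine logGen_of hG fun n T hT => ?_
  obtain ⟨p, hb, hF⟩ := hp n
  rw [hF T]
  exact H n _ (by rw [one_div, inv_mul_cancel₀ (by positivity)]) p hb T hT

end Pool.Agent.MP_ca1109_lc.Nb
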