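import Pool.Agent.MP_ca1109_lc.Xs.Test
import Pool.Agent.MP_ca1109_lc.Mpg.G0
import Mathlib.Algebra.MvPolynomial.Degrees

/-!
# Maps of low degree, varieties of small average codimension
-/

namespace Pool.Agent.MP_ca1109_lc.Nb

open Pool.Agent.MP_ca1109_lc.Xs

/-- `p` is given by a polynomial of degree at most `d` over the field with two elements. -/
def Deg (d : ℕ) {n : ℕ} (p : (Fin n → Bool) → Bool) : Prop :=
  ∃ P : MvPolynomial (Fin n) (ZMod 2), P.totalDegree ≤ d ∧
    ∀ x, p x = true ↔ MvPolynomial.eval (fun i => if x i = true then (1 : ZMod 2) else 0) P = 1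

/-- `p` is a probability distribution on the cube which fools all polynomials of degree at most `d`
over the field with two elements with error at most `δ`. -/
def FoolsDeg (d : ℕ) {n : ℕ} (δ : ℝ) (p : (Fin n → Bool) → ℝ) : Prop :=
  (∀ x, 0 ≤ p x) ∧ ∑ x, p x = 1 ∧ ∀ q : (Fin n → Bool) → Bool, Deg d q →
    |(∑ x, if q x = true then p x else 0) - prob q| ≤ δ

/-- The sum modulo two of the strings `x j`. -/
def xs {d n : ℕ} (x : Fin d → Fin n → Bool) : Fin n → Bool := fun i => par Finset.univ fun j => x j i

/-- On the set of the points where all `q i` are true, each nonempty parity of the bits `Q i` is odd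
and even with probabilities (of a uniform point of the cube, in this set) which differ by at most
`β`. -/
def SmallOn {n c m : ℕ} (β : ℝ) (q : Fin c → (Fin n → Bool) → Bool)
    (Q : Fin m → (Fin n → Bool) → Bool) : Prop :=
  ∀ S : Finset (Fin m), S.Nonempty →
    |prob (fun x => decide ((∀ i, q i x = true) ∧ par S (fun i => Q i x) = true)) -
      prob (fun x => decide ((∀ i, q i x = true) ∧ par S (fun i => Q i x) = false))| ≤ β

/-- The cube is partitioned into any number of sets. The set `j` consists of the points where the
`c j` polynomials `q j i` of degree at most `d` are true; the average of `c j` for the set `j` of a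
uniform point is at most `h ⌈log₂ n⌉`. For instance, the sets are the leaves of a decision tree of
average depth at most `h ⌈log₂ n⌉` which queries polynomials of degree at most `d`. On the set `j`,
`f` is the composition of a map, whose `m j ≤ n ^ (h + 1)` coordinates are polynomials of degree at
most `d` (of all variables) with nonempty parities of bias at most `β` on the set, with a function in
the class `SbTest r B k h` on `m j` bits. -/
def PolyTest (r B k h d : ℕ) (β : ℝ) (n : ℕ) (f : (Fin n → Bool) → Bool) : Prop :=
  ∃ (N : ℕ) (c m : Fin N → ℕ) (q : (j : Fin N) → Fin (c j) → (Fin n → Bool) → Bool)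
    (Q : (j : Fin N) → Fin (m j) → (Fin n → Bool) → Bool)
    (g : (j : Fin N) → (Fin (m j) → Bool) → Bool),
    (∀ x : Fin n → Bool, ∃! j, ∀ i, q j i x = true) ∧
    ∑ j, (c j : ℝ) * prob (fun x => decide (∀ i, q j i x = true)) ≤ h * Nat.clog 2 n ∧
    (∀ j i, Deg d (q j i)) ∧ (∀ j i, Deg d (Q j i)) ∧ (∀ j, m j ≤ n ^ (h + 1)) ∧
    (∀ j, SmallOn β (q j) (Q j)) ∧ (∀ j, SbTest r B k h (m j) (g j)) ∧
    ∀ (j : Fin N) (x : Fin n → Bool), (∀ i, q j i x = true) → f x = g j fun i => Q j i x

end Pool.Agent.MP_ca1109_lc.Nb
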