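import Pool.Agent.MP_ca1109_lc.Nb.VW

/-!
# The sum of `d` small-biased strings fools polynomials of degree at most `d`
-/

namespace Pool.Agent.MP_ca1109_lc.Nb

open Finset Pool.Agent.MP_ca1109_lc.Xs

variable {n : ℕ}

/-- The expectation for independent strings. -/
def dsum {d : ℕ} (p : Fin d → (Fin n → Bool) → ℝ) (φ : (Fin n → Bool) → ℝ) : ℝ :=
  ∑ x : Fin d → Fin n → Bool, (∏ j, p j (x j)) * φ (xs x)

theorem par_succ {d : ℕ} (y : Fin (d + 1) → Bool) :
    par univ y = Bool.xor (y 0) (par univ fun j => y j.succ) := by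
  classical
  have h1 : (univ : Finset (Fin (d + 1))) = insert 0 (univ.map (Fin.succEmb d)) := by
    rw [Fin.univ_succ, cons_eq_insert]
    rfl
  have h2 : (0 : Fin (d + 1)) ∉ univ.map (Fin.succEmb d) := by
    simp
  have h3 : par (univ.map (Fin.succEmb d)) y = par univ fun j => y j.succ := by
    unfold par
    rw [filter_map, card_map]
    rfl
  rw [h1, par_insert h2, h3]

theorem xs_cons {d : ℕ} (e : Fin n → Bool) (x : Fin d → Fin n → Bool) :
    xs (Fin.cons e x : Fin (d + 1) → Fin n → Bool) = xr (xs x) e := by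
  funext i
  show par univ (fun j => (Fin.cons e x : Fin (d + 1) → Fin n → Bool) j i) =
    Bool.xor (par univ fun j => x j i) (e i)
  rw [par_succ, Bool.xor_comm]
  rfl

theorem dsum_succ {d : ℕ} (p : Fin (d + 1) → (Fin n → Bool) → ℝ) (φ : (Fin n → Bool) → ℝ) :
    dsum p φ = ∑ x : Fin d → Fin n → Bool, ∑ e, (∏ j, p j.succ (x j)) * p 0 e * φ (xr (xs x) e) := by
  unfold dsum
  rw [← Equiv.sum_comp (Fin.consEquiv fun _ : Fin (d + 1) => Fin n → Bool), Fintype.sum_prod_type,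
    sum_comm]
  refine sum_congr rfl fun x _ => sum_congr rfl fun e _ => ?_
  have h1 : (Fin.consEquiv fun _ : Fin (d + 1) => Fin n → Bool) (e, x) =
      (Fin.cons e x : Fin (d + 1) → Fin n → Bool) := rfl
  rw [h1, xs_cons, Fin.prod_univ_succ]
  simp only [Fin.cons_zero, Fin.cons_succ]
  ring

theorem prod_nonneg' {d : ℕ} {δ : ℝ} {p : Fin d → (Fin n → Bool) → ℝ}
    (hp : ∀ j, SmallBias n δ (p j)) (x : Fin d → Fin n → Bool) : 0 ≤ ∏ j, p j (x j) :=
  prod_nonneg fun j _ => (hp j).1 _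

theorem prod_sum_one {d : ℕ} {δ : ℝ} {p : Fin d → (Fin n → Bool) → ℝ}
    (hp : ∀ j, SmallBias n δ (p j)) : ∑ x : Fin d → Fin n → Bool, ∏ j, p j (x j) = 1 := by
  have h1 := (prod_univ_sum (fun _ : Fin d => (univ : Finset (Fin n → Bool))) fun j y => p j y).symm
  rw [Fintype.piFinset_univ] at h1
  rw [h1]
  exact prod_eq_one fun j _ => (hp j).2.1

theorem vio (d : ℕ) : ∀ A : ℕ, ∃ C : ℕ, ∀ n : ℕ, 1 ≤ n → ∀ δ : ℝ, 0 ≤ δ →
    δ * ((n : ℝ) + 1) ^ C ≤ 1 →
    ∀ p : Fin d → (Fin n → Bool) → ℝ, (∀ j, SmallBias n δ (p j)) →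
      ∀ f : (Fin n → Bool) → Bool, Deg d f →
        |dsum p (fun x => sg (f x)) - avg (fun x => sg (f x))| * ((n : ℝ) + 1) ^ A ≤ 1 := by
  induction d with
  | zero =>
    intro A
    refine ⟨0, fun n _ δ _ _ p _ f hf => ?_⟩
    have h1 : ∀ x, sg (f x) = sg (f fun _ => false) := fun x => by rw [hf.zero x fun _ => false]
    have h2 : dsum p (fun x => sg (f x)) = sg (f fun _ => false) := by
      unfold dsum
      simp only [h1]
      simp
    have h3 : avg (fun x => sg (f x)) = sg (f fun _ => false) := by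
      simp only [h1]
      unfold avg
      rw [sum_const, card_univ, nsmul_eq_mul, mul_div_assoc, mul_div_cancel₀]
      have : (0 : ℝ) < (Fintype.card (Fin n → Bool) : ℝ) := by exact_mod_cast Fintype.card_pos
      exact this.ne'
    rw [h2, h3, sub_self, abs_zero, zero_mul]
    exact zero_le_one
  | succ d ih =>
    intro A
    obtain ⟨C, hC⟩ := ih (2 * A + 6)
    refine ⟨max C (A + 1), fun n hn δ hδ hδC p hp f hf => ?_⟩
    obtain ⟨M, hM⟩ : ∃ M : ℝ, M = (n : ℝ) + 1 := ⟨_, rfl⟩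
    have hn' : (1 : ℝ) ≤ n := by exact_mod_cast hn
    have hM2 : 2 ≤ M := by rw [hM]; linarith
    have hM1 : 1 ≤ M := by linarith
    have hM0 : 0 < M := by linarith
    rw [← hM] at hδC ⊢
    have h1 : δ * M ^ C ≤ 1 :=
      (mul_le_mul_of_nonneg_left (pow_le_pow_right₀ hM1 (le_max_left _ _)) hδ).trans hδC
    have h2 : δ * M ^ (A + 1) ≤ 1 :=
      (mul_le_mul_of_nonneg_left (pow_le_pow_right₀ hM1 (le_max_right _ _)) hδ).trans hδC
    obtain ⟨η, hη⟩ : ∃ η : ℝ, η = (1 / M ^ (A + 3)) ^ 2 := ⟨_, rfl⟩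
    have hs : √η = 1 / M ^ (A + 3) := by
      rw [hη]
      exact Real.sqrt_sq (by positivity)
    have hη0 : 0 < η := by rw [hη]; positivity
    have h3 := viola_w (w := fun x : Fin d → Fin n → Bool => ∏ j, p j.succ (x j))
      (fun x => prod_nonneg' (fun j => hp j.succ) x) (prod_sum_one fun j => hp j.succ)
      (fun x => xs x) (hp 0) hδ hη0 (F := fun x => sg (f x)) (fun x => sg_sq _) (fun a b => by
        have h4 := hC n hn δ hδ (by rw [← hM]; exact h1) (fun j => p j.succ) (fun j => hp j.succ) _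
          (hf.der a b)
        simp only [sg_xor] at h4
        rw [← hM] at h4
        have h5 : M ^ (2 * A + 6) = (M ^ (A + 3)) ^ 2 := by rw [← pow_mul]; ring
        rw [h5, ← le_div_iff₀ (by positivity), ← one_div_pow, ← hη] at h4
        exact h4)
    rw [dsum_succ]
    rw [hs] at h3
    have hMA : 0 < M ^ A := by positivity
    have h4 : 3 * (1 / M ^ (A + 3)) * M ^ A ≤ 1 / 2 := by
      have h5 : M ^ (A + 3) = M ^ A * M ^ 3 := pow_add _ _ _
      rw [h5]
      have h6 : 3 * (1 / (M ^ A * M ^ 3)) * M ^ A = 3 / M ^ 3 := by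
        field_simp
      rw [h6, div_le_iff₀ (by positivity)]
      have h7 : (2 : ℝ) ^ 3 ≤ M ^ 3 := pow_le_pow_left₀ (by norm_num) hM2 3
      linarith
    have h5 : δ * M ^ A ≤ 1 / 2 := by
      rw [pow_succ, ← mul_assoc] at h2
      have h6 : δ * M ^ A * 2 ≤ δ * M ^ A * M := mul_le_mul_of_nonneg_left hM2 (by positivity)
      linarith
    calc _ ≤ (3 * (1 / M ^ (A + 3)) + δ) * M ^ A := mul_le_mul_of_nonneg_right h3 hMA.le
      _ = 3 * (1 / M ^ (A + 3)) * M ^ A + δ * M ^ A := by ring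
      _ ≤ 1 := by linarith

end Pool.Agent.MP_ca1109_lc.Nb
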