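import Pool.Agent.MP_ca1109_lc.Nb.DG
import Pool.Agent.MP_ca1109_lc.Dnf.B1
import Pool.Agent.MP_ca1109_lc.MonoProb

/-!
# Viola's step for weighted random strings
-/

namespace Pool.Agent.MP_ca1109_lc.Nb

open Finset Pool.Agent.MP_ca1109_lc.Xs
open Pool.Agent.MP_ca1109_lc.Dnf (Cube ch fc E)

variable {n : ℕ}

/-! ## Signs and parities -/

theorem sg_xor (a b : Bool) : sg (Bool.xor a b) = sg a * sg b := by
  cases a <;> cases b <;> simp [sg]

theorem sg_sq (a : Bool) : sg a ^ 2 = 1 := by
  cases a <;> simp [sg]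

theorem par_insert {m : ℕ} {S : Finset (Fin m)} {i : Fin m} (hi : i ∉ S) (y : Fin m → Bool) :
    par (insert i S) y = Bool.xor (y i) (par S y) := by
  show decide (Odd ((insert i S).filter fun i => y i = true).card) =
    Bool.xor (y i) (decide (Odd (S.filter fun i => y i = true).card))
  rw [filter_insert]
  cases hq : y i with
  | true =>
    rw [if_pos rfl, card_insert_of_notMem fun h => hi (mem_filter.1 h).1]
    rcases Nat.even_or_odd (S.filter fun i => y i = true).card with h | h
    · simp [Nat.not_odd_iff_even.2 h, h.add_one]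
    · simp [h, Nat.not_odd_iff_even.2 h.add_one]
  | false =>
    rw [if_neg (by simp)]
    simp

theorem par_empty {m : ℕ} (y : Fin m → Bool) : par ∅ y = false := by
  simp [par]

theorem ch_par (S : Finset (Fin n)) (x : Cube n) : ch S x = (-1) ^ S.card * sg (par S x) := by
  classical
  induction S using Finset.induction_on with
  | empty => rw [par_empty]; simp [ch, sg]
  | insert i S hi ih =>
    have h1 : ch (insert i S) x = Dnf.sg (x i) * ch S x := by
      unfold ch
      rw [prod_insert hi]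
    have h2 : Dnf.sg (x i) = -1 * sg (x i) := by
      cases x i <;> simp [sg, Dnf.sg]
    rw [h1, h2, ih, par_insert hi, sg_xor, card_insert_of_notMem hi, pow_succ]
    ring

theorem ch_xr (S : Finset (Fin n)) (x e : Cube n) :
    ch S (xr x e) = (-1) ^ S.card * (ch S x * ch S e) := by
  unfold ch
  rw [← prod_mul_distrib, ← prod_const, ← prod_mul_distrib]
  refine prod_congr rfl fun i _ => ?_
  show Dnf.sg (Bool.xor (x i) (e i)) = _
  cases x i <;> cases e i <;> simp [Dnf.sg]

theorem nu_hat {ν : Cube n → ℝ} {δ : ℝ} (hν : SmallBias n δ ν) {S : Finset (Fin n)}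
    (hS : S.Nonempty) : |∑ e, ν e * ch S e| ≤ δ := by
  have h1 := hν.2.2 S hS (by simpa using card_le_univ S)
  have h2 : ∑ e, ν e * ch S e = (-1) ^ S.card * ∑ x, ν x * (if par S x = true then -1 else 1) := by
    rw [mul_sum]
    refine sum_congr rfl fun e _ => ?_
    rw [ch_par]
    unfold sg
    ring
  rw [h2, abs_mul, abs_pow, abs_neg, abs_one, one_pow, one_mul]
  exact h1

theorem avg_eq (f : Cube n → ℝ) : avg f = E f := by
  unfold avg E
  congr 1
  simp

theorem avg_sum (f : Cube n → ℝ) : avg f = ∑ x, 1 / 2 ^ n * f x := by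
  rw [avg_eq, E, sum_div]
  exact sum_congr rfl fun x _ => by ring

theorem xr_xr (x e : Cube n) : xr (xr x e) e = x := by
  funext i
  show Bool.xor (Bool.xor (x i) (e i)) (e i) = x i
  cases x i <;> cases e i <;> rfl

theorem xr_comm (x e : Cube n) : xr x e = xr e x := by
  funext i
  exact Bool.xor_comm _ _

/-- Translations of the cube. -/
def xrE (e : Cube n) : Cube n ≃ Cube n := ⟨fun x => xr x e, fun x => xr x e, fun x => xr_xr x e,
  fun x => xr_xr x e⟩

theorem avg_shift (f : Cube n → ℝ) (e : Cube n) : avg (fun x => f (xr x e)) = avg f := by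
  unfold avg
  congr 1
  exact Equiv.sum_comp (xrE e) f

theorem avg_shift' (f : Cube n → ℝ) (x : Cube n) : avg (fun e => f (xr x e)) = avg f := by
  rw [← avg_shift f x]
  congr 1
  funext e
  rw [xr_comm]

/-! ## The step -/

/-- The smoothed function. -/
theorem smooth {ν : Cube n → ℝ} {δ : ℝ} (hν : SmallBias n δ ν) {F : Cube n → ℝ}
    (hF : ∀ x, F x ^ 2 = 1) :
    avg (fun y => (∑ e, ν e * F (xr y e)) ^ 2) ≤ avg F ^ 2 + δ ^ 2 := by
  classical
  have h1 : ∀ y, ∑ e, ν e * F (xr y e) =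
      ∑ S, ((-1) ^ S.card * fc F S * ∑ e, ν e * ch S e) * ch S y := by
    intro y
    have h2 : ∀ e, ν e * F (xr y e) =
        ∑ S, (-1) ^ S.card * fc F S * (ν e * ch S e) * ch S y := by
      intro e
      rw [Dnf.inversion F (xr y e), mul_sum]
      refine sum_congr rfl fun S _ => ?_
      rw [ch_xr]
      ring
    rw [sum_congr rfl fun e _ => h2 e, sum_comm]
    refine sum_congr rfl fun S _ => ?_
    rw [mul_sum, sum_mul]
  have h3 : ∀ S, fc (fun y => ∑ e, ν e * F (xr y e)) S =
      (-1) ^ S.card * fc F S * ∑ e, ν e * ch S e := by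
    intro S
    rw [show (fun y => ∑ e, ν e * F (xr y e)) = fun y =>
      ∑ S, ((-1) ^ S.card * fc F S * ∑ e, ν e * ch S e) * ch S y from funext h1]
    exact Dnf.fc_poly _ S
  rw [avg_eq, Dnf.parseval]
  have h4 : ∀ S, fc (fun y => ∑ e, ν e * F (xr y e)) S ^ 2 ≤
      (if S = ∅ then fc F S ^ 2 else 0) + δ ^ 2 * fc F S ^ 2 := by
    intro S
    rw [h3, mul_pow, mul_pow, ← pow_mul, mul_comm S.card 2, pow_mul, neg_one_sq, one_pow, one_mul]
    split_ifs with h5
    · subst h5
      have h6 : ∑ e, ν e * ch ∅ e = 1 := by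
        simp only [Dnf.ch_empty, mul_one]
        exact hν.2.1
      rw [h6, one_pow, mul_one]
      have : 0 ≤ δ ^ 2 * fc F ∅ ^ 2 := by positivity
      linarith
    · have h6 := nu_hat hν (nonempty_iff_ne_empty.2 h5)
      have h7 : (∑ e, ν e * ch S e) ^ 2 ≤ δ ^ 2 := by
        rw [← sq_abs]
        exact pow_le_pow_left₀ (abs_nonneg _) h6 2
      have := mul_le_mul_of_nonneg_left h7 (sq_nonneg (fc F S))
      linarith
  refine (sum_le_sum fun S _ => h4 S).trans ?_
  rw [sum_add_distrib, sum_ite_eq' univ ∅, if_pos (mem_univ _), ← mul_sum, ← Dnf.parseval,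
    Dnf.fc_empty, avg_eq]
  have h8 : E (fun x => F x ^ 2) = 1 := by
    simp only [hF]
    unfold E
    rw [sum_const, card_univ]
    simp
  rw [h8, mul_one]

theorem quad {ι : Type*} [Fintype ι] (w : ι → ℝ) (Z : ι → Cube n) (ν : Cube n → ℝ)
    (F : Cube n → ℝ) : ∑ i, w i * (∑ e, ν e * F (xr (Z i) e)) ^ 2 =
      ∑ e, ∑ e', ν e * ν e' * ∑ i, w i * (F (xr (Z i) e) * F (xr (Z i) e')) := by
  have h1 : ∀ i, w i * (∑ e, ν e * F (xr (Z i) e)) ^ 2 =
      ∑ e, ∑ e', ν e * ν e' * (w i * (F (xr (Z i) e) * F (xr (Z i) e'))) := by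
    intro i
    rw [sq, sum_mul_sum, mul_sum]
    refine sum_congr rfl fun e _ => ?_
    rw [mul_sum]
    exact sum_congr rfl fun e' _ => by ring
  rw [sum_congr rfl fun i _ => h1 i, sum_comm]
  refine sum_congr rfl fun e _ => ?_
  rw [sum_comm]
  refine sum_congr rfl fun e' _ => ?_
  rw [mul_sum]

theorem jensen {ι : Type*} [Fintype ι] {w : ι → ℝ} (hw : ∀ i, 0 ≤ w i) (hw1 : ∑ i, w i = 1)
    (a : ι → ℝ) : (∑ i, w i * a i) ^ 2 ≤ ∑ i, w i * a i ^ 2 := by
  have h1 : 0 ≤ ∑ i, w i * (a i - ∑ j, w j * a j) ^ 2 :=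
    sum_nonneg fun i _ => mul_nonneg (hw i) (sq_nonneg _)
  obtain ⟨s, hs⟩ : ∃ s : ℝ, s = ∑ j, w j * a j := ⟨_, rfl⟩
  rw [← hs] at h1 ⊢
  have h2 : ∑ i, w i * (a i - s) ^ 2 = ∑ i, w i * a i ^ 2 - 2 * s * ∑ i, w i * a i +
      s ^ 2 * ∑ i, w i := by
    rw [mul_sum, mul_sum, ← sum_sub_distrib, ← sum_add_distrib]
    exact sum_congr rfl fun i _ => by ring
  rw [h2, ← hs, hw1] at h1
  linarith

/-- Viola's step. -/
theorem viola_w {ι : Type*} [Fintype ι] {w : ι → ℝ} (hw : ∀ i, 0 ≤ w i) (hw1 : ∑ i, w i = 1)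
    (Z : ι → Cube n) {ν : Cube n → ℝ} {δ η : ℝ} (hν : SmallBias n δ ν) (hδ : 0 ≤ δ)
    (hη : 0 < η) {F : Cube n → ℝ} (hF : ∀ x, F x ^ 2 = 1)
    (H : ∀ a b, |∑ i, w i * (F (xr (Z i) a) * F (xr (Z i) b)) -
      avg (fun x => F (xr x a) * F (xr x b))| ≤ η) :
    |∑ i, ∑ e, w i * ν e * F (xr (Z i) e) - avg F| ≤ 3 * √η + δ := by
  have hs : 0 < √η := Real.sqrt_pos.2 hη
  have hss : √η ^ 2 = η := Real.sq_sqrt hη.le
  have hX : ∑ i, ∑ e, w i * ν e * F (xr (Z i) e) = ∑ i, w i * ∑ e, ν e * F (xr (Z i) e) := by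
    refine sum_congr rfl fun i _ => ?_
    rw [mul_sum]
    exact sum_congr rfl fun e _ => by ring
  rcases le_or_gt (√η) |avg F| with hm | hm
  · -- large mean
    have h1 : ∀ e, |∑ i, w i * F (xr (Z i) e) - avg F| ≤ √η := by
      intro e
      have h2 : avg F * (∑ i, w i * F (xr (Z i) e) - avg F) =
          avg (fun h => ∑ i, w i * (F (xr (Z i) e) * F (xr (Z i) h)) -
            avg (fun x => F (xr x e) * F (xr x h))) := by
        have h3 : avg (fun h => ∑ i, w i * (F (xr (Z i) e) * F (xr (Z i) h))) =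
            avg F * ∑ i, w i * F (xr (Z i) e) := by
          rw [avg_sum, sum_congr rfl fun h _ => mul_sum _ _ _, sum_comm, mul_sum]
          refine sum_congr rfl fun i _ => ?_
          rw [← avg_shift' F (Z i), avg_sum, sum_mul]
          exact sum_congr rfl fun h _ => by ring
        have h4 : avg (fun h => avg (fun x => F (xr x e) * F (xr x h))) = avg F * avg F := by
          have h5 : avg (fun h => avg (fun x => F (xr x e) * F (xr x h))) =
              ∑ x, (1 / 2 ^ n * F (xr x e)) * avg (fun h => F (xr x h)) := by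
            rw [avg_sum]
            simp only [avg_sum, mul_sum]
            rw [sum_comm]
            refine sum_congr rfl fun x _ => sum_congr rfl fun h _ => ?_
            ring
          rw [h5]
          simp only [avg_shift']
          rw [← sum_mul, ← avg_sum (fun x => F (xr x e)), avg_shift]
        have h6 : avg (fun h => ∑ i, w i * (F (xr (Z i) e) * F (xr (Z i) h)) -
            avg (fun x => F (xr x e) * F (xr x h))) =
            avg (fun h => ∑ i, w i * (F (xr (Z i) e) * F (xr (Z i) h))) -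
              avg (fun h => avg (fun x => F (xr x e) * F (xr x h))) := by
          rw [avg_sum, avg_sum, avg_sum, ← sum_sub_distrib]
          exact sum_congr rfl fun h _ => by ring
        rw [h6, h3, h4]
        ring
      have h7 : |avg F * (∑ i, w i * F (xr (Z i) e) - avg F)| ≤ η := by
        rw [h2, avg_sum]
        refine (abs_sum_le_sum_abs _ _).trans ?_
        have h8 : ∀ h ∈ (univ : Finset (Cube n)), |1 / 2 ^ n *
            (∑ i, w i * (F (xr (Z i) e) * F (xr (Z i) h)) -
              avg (fun x => F (xr x e) * F (xr x h)))| ≤ 1 / 2 ^ n * η := by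
          intro h _
          rw [abs_mul, abs_of_pos (by positivity : (0 : ℝ) < 1 / 2 ^ n)]
          exact mul_le_mul_of_nonneg_left (H e h) (by positivity)
        refine (sum_le_sum h8).trans (le_of_eq ?_)
        rw [sum_const, card_univ, nsmul_eq_mul]
        simp
      rw [abs_mul] at h7
      have h9 : √η * |∑ i, w i * F (xr (Z i) e) - avg F| ≤ √η * √η := by
        refine (mul_le_mul_of_nonneg_right hm (abs_nonneg _)).trans ?_
        rw [← sq, hss]
        exact h7
      exact le_of_mul_le_mul_left h9 hs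
    have h2 : ∑ i, ∑ e, w i * ν e * F (xr (Z i) e) - avg F =
        ∑ e, ν e * (∑ i, w i * F (xr (Z i) e) - avg F) := by
      have h3 : ∑ e, ν e * (∑ i, w i * F (xr (Z i) e) - avg F) =
          ∑ e, ν e * ∑ i, w i * F (xr (Z i) e) - (∑ e, ν e) * avg F := by
        rw [sum_mul, ← sum_sub_distrib]
        exact sum_congr rfl fun e _ => by ring
      rw [h3, hν.2.1, one_mul, sum_comm]
      congr 1
      refine sum_congr rfl fun e _ => ?_
      rw [mul_sum]
      exact sum_congr rfl fun i _ => by ring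
    rw [h2]
    refine (abs_sum_le_sum_abs _ _).trans ?_
    have h4 : ∀ e ∈ (univ : Finset (Cube n)),
        |ν e * (∑ i, w i * F (xr (Z i) e) - avg F)| ≤ ν e * √η := by
      intro e _
      rw [abs_mul, abs_of_nonneg (hν.1 e)]
      exact mul_le_mul_of_nonneg_left (h1 e) (hν.1 e)
    refine (sum_le_sum h4).trans ?_
    rw [← sum_mul, hν.2.1, one_mul]
    linarith
  · -- small mean
    have h1 := jensen hw hw1 fun i => ∑ e, ν e * F (xr (Z i) e)
    rw [← hX] at h1
    have h2 : ∑ i, w i * (∑ e, ν e * F (xr (Z i) e)) ^ 2 ≤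
        avg (fun y => (∑ e, ν e * F (xr y e)) ^ 2) + η := by
      have h3 : avg (fun y => (∑ e, ν e * F (xr y e)) ^ 2) =
          ∑ e, ∑ e', ν e * ν e' * avg (fun x => F (xr x e) * F (xr x e')) := by
        rw [avg_sum, quad (fun _ => 1 / 2 ^ n) (fun x => x) ν F]
        simp only [avg_sum]
      have h4 : η = ∑ e, ∑ e', ν e * ν e' * η := by
        simp only [← sum_mul, ← mul_sum, hν.2.1, mul_one, one_mul]
      rw [quad, h3]
      conv_rhs => rw [h4]
      rw [← sum_add_distrib]
      refine sum_le_sum fun e _ => ?_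
      rw [← sum_add_distrib]
      refine sum_le_sum fun e' _ => ?_
      rw [← mul_add]
      refine mul_le_mul_of_nonneg_left ?_ (mul_nonneg (hν.1 e) (hν.1 e'))
      have := (abs_le.1 (H e e')).2
      linarith
    have h3 := smooth hν hF
    have h4 : avg F ^ 2 ≤ η := by
      rw [← hss, ← sq_abs]
      exact pow_le_pow_left₀ (abs_nonneg _) hm.le 2
    have h5 : (∑ i, ∑ e, w i * ν e * F (xr (Z i) e)) ^ 2 ≤ (2 * √η + δ) ^ 2 := by
      have h6 : (2 * √η + δ) ^ 2 = 4 * √η ^ 2 + 4 * (√η * δ) + δ ^ 2 := by ring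
      rw [h6, hss]
      have : 0 ≤ √η * δ := mul_nonneg hs.le hδ
      linarith
    have h6 := abs_le_of_sq_le_sq h5 (by positivity)
    rw [abs_le] at h6 ⊢
    rw [abs_lt] at hm
    constructor <;> linarith [h6.1, h6.2, hm.1, hm.2]

end Pool.Agent.MP_ca1109_lc.Nb
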